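import Pool.Agent.Helper17_EU.StmtsF

/-! # FREE1: free arcs of a Peano continuum have end points (helper80) -/

open Set Metric Topology unitInterval Filter

noncomputable section

namespace Pool.Agent.EU.H80

universe u

variable {X : Type u} [MetricSpace X] [CompactSpace X] [LocallyConnectedSpace X]

/-- the filter `t → 0` on the open interval -/
def F0 : Filter (Ioo (0 : ℝ) 1) := Filter.comap Subtype.val (𝓝 0)

/-- the filter `t → 1` on the open interval -/
def F1 : Filter (Ioo (0 : ℝ) 1) := Filter.comap Subtype.val (𝓝 1)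

theorem small_mem_F0 {δ : ℝ} (hδ : 0 < δ) : {t : Ioo (0 : ℝ) 1 | (t : ℝ) < δ} ∈ F0 :=
  preimage_mem_comap (Iio_mem_nhds hδ)

instance F0_neBot : F0.NeBot := by
  unfold F0
  rw [comap_neBot_iff]
  intro s hs
  obtain ⟨ε, hε, hs⟩ := Metric.mem_nhds_iff.1 hs
  refine ⟨⟨min (ε / 2) (1 / 2), ?_, ?_⟩, hs ?_⟩
  · positivity
  · exact (min_le_right _ _).trans_lt (by norm_num)
  · rw [Metric.mem_ball, Real.dist_eq, sub_zero]
    have h0 : 0 < min (ε / 2) (1 / 2) := by positivity
    show |min (ε / 2) (1 / 2)| < ε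
    rw [abs_of_pos h0]
    exact (min_le_left _ _).trans_lt (by linarith)

theorem freq_F0 {P : Ioo (0 : ℝ) 1 → Prop} (h : ∃ᶠ t in F0, P t) {δ : ℝ} (hδ : 0 < δ) :
    ∃ t, P t ∧ (t : ℝ) < δ :=
  (h.and_eventually (small_mem_F0 hδ)).exists

theorem lim0 {p : Ioo (0 : ℝ) 1 → X} (hp : IsOpenEmbedding p) :
    ∃ a, a ∉ range p ∧ Tendsto p F0 (𝓝 a) := by
  obtain ⟨x, hx⟩ := exists_clusterPt_of_compactSpace (map p F0)
  have hfr : ∀ U ∈ 𝓝 x, ∃ᶠ t in F0, p t ∈ U := by
    intro U hU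
    exact (mapClusterPt_iff_frequently.1 hx) U hU
  have hxr : x ∉ range p := by
    rintro ⟨t0, rfl⟩
    have ht0 : (0 : ℝ) < t0 / 2 := by have := t0.2.1; linarith
    have hO : IsOpen {t : Ioo (0 : ℝ) 1 | (t0 : ℝ) / 2 < t} :=
      isOpen_lt continuous_const continuous_subtype_val
    have hU : p '' {t : Ioo (0 : ℝ) 1 | (t0 : ℝ) / 2 < t} ∈ 𝓝 (p t0) :=
      (hp.isOpenMap _ hO).mem_nhds ⟨t0, by
        show (t0 : ℝ) / 2 < t0
        linarith, rfl⟩
    obtain ⟨t, ht, ht2⟩ := freq_F0 (hfr _ hU) ht0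
    obtain ⟨t', ht', he⟩ := ht
    rw [hp.injective he] at ht'
    exact absurd ht2 (not_lt.2 (le_of_lt ht'))
  refine ⟨x, hxr, ?_⟩
  by_contra hnt
  rw [tendsto_def] at hnt
  push Not at hnt
  obtain ⟨V, hV, hVn⟩ := hnt
  obtain ⟨U, hUV, hUo, hxU, hUc⟩ :=
    locallyConnectedSpace_iff_subsets_isOpen_isConnected.1 inferInstance x V hV
  have hfn : ∃ᶠ t in F0, p t ∉ U := by
    intro h
    apply hVn
    filter_upwards [h] with t ht
    exact hUV (not_not.1 ht)
  obtain ⟨t3, h3, -⟩ := freq_F0 hfn one_pos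
  obtain ⟨t2, h2, h23⟩ := freq_F0 (hfr U (hUo.mem_nhds hxU)) t3.2.1
  obtain ⟨t1, h1, h12⟩ := freq_F0 hfn t2.2.1
  have hcl : IsClosed (p '' Icc t1 t3) := by
    apply IsCompact.isClosed
    apply IsCompact.image _ hp.continuous
    rw [Subtype.isCompact_iff]
    have e : (Subtype.val '' Icc t1 t3 : Set ℝ) = Icc (t1 : ℝ) t3 := by
      ext s
      constructor
      · rintro ⟨s, hs, rfl⟩
        exact ⟨hs.1, hs.2⟩
      · intro hs
        exact ⟨⟨s, t1.2.1.trans_le hs.1, hs.2.trans_lt t3.2.2⟩, ⟨hs.1, hs.2⟩, rfl⟩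
    rw [e]
    exact isCompact_Icc
  have hop : IsOpen (p '' Ioo t1 t3) := hp.isOpenMap _ isOpen_Ioo
  have heq : ∀ y ∈ U, y ∈ p '' Icc t1 t3 → y ∈ p '' Ioo t1 t3 := by
    rintro y hy ⟨t, ht, rfl⟩
    refine ⟨t, ⟨lt_of_le_of_ne ht.1 ?_, lt_of_le_of_ne ht.2 ?_⟩, rfl⟩
    · rintro rfl
      exact h1 hy
    · rintro rfl
      exact h3 hy
  have hsub : U ⊆ p '' Ioo t1 t3 := by
    apply hUc.isPreconnected.subset_left_of_subset_union hop hcl.isOpen_compl
    · rw [disjoint_compl_right_iff_subset]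
      exact image_mono Ioo_subset_Icc_self
    · intro y hy
      by_cases h : y ∈ p '' Icc t1 t3
      · exact Or.inl (heq y hy h)
      · exact Or.inr h
    · exact ⟨p t2, h2, ⟨t2, ⟨h12, h23⟩, rfl⟩⟩
  obtain ⟨t, -, ht⟩ := hsub hxU
  exact hxr ⟨t, ht⟩

/-- reversal of the open interval -/
def rv : Ioo (0 : ℝ) 1 ≃ₜ Ioo (0 : ℝ) 1 where
  toFun t := ⟨1 - t, by have := t.2.2; linarith, by have := t.2.1; linarith⟩
  invFun t := ⟨1 - t, by have := t.2.2; linarith, by have := t.2.1; linarith⟩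
  left_inv t := by ext; simp
  right_inv t := by ext; simp
  continuous_toFun := by fun_prop
  continuous_invFun := by fun_prop

theorem rv_tendsto : Tendsto rv F1 F0 := by
  unfold F0 F1
  rw [tendsto_comap_iff]
  have h : Tendsto (fun t : ℝ => 1 - t) (𝓝 1) (𝓝 0) := by
    have hc : Continuous fun t : ℝ => 1 - t := by fun_prop
    have := hc.tendsto 1
    rwa [sub_self] at this
  exact h.comp tendsto_comap

theorem lim1 {p : Ioo (0 : ℝ) 1 → X} (hp : IsOpenEmbedding p) :
    ∃ b, b ∉ range p ∧ Tendsto p F1 (𝓝 b) := by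
  obtain ⟨b, hb, hb2⟩ := lim0 (hp.comp rv.isOpenEmbedding)
  refine ⟨b, ?_, ?_⟩
  · rintro ⟨t, rfl⟩
    exact hb ⟨rv.symm t, by simp⟩
  · have h := hb2.comp rv_tendsto
    refine h.congr fun t => ?_
    simp only [Function.comp_apply]
    congr 1
    ext
    simp [rv]

omit [CompactSpace X] [LocallyConnectedSpace X] in
theorem closure_range {p : Ioo (0 : ℝ) 1 → X} (hp : IsOpenEmbedding p) {a b : X}
    (ha : Tendsto p F0 (𝓝 a)) (hb : Tendsto p F1 (𝓝 b)) :
    closure (range p) = range p ∪ {a, b} := by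
  apply Subset.antisymm
  · intro y hy
    rw [mem_closure_iff_ultrafilter] at hy
    obtain ⟨w, hw, hwy⟩ := hy
    obtain ⟨v, hv⟩ : ∃ v : Ultrafilter (Ioo (0 : ℝ) 1), v.map p = w := by
      have : (Filter.comap p w).NeBot := by
        apply comap_neBot
        intro s hs
        obtain ⟨z, hz1, ⟨t, rfl⟩⟩ := w.nonempty_of_mem (inter_mem hs hw)
        exact ⟨t, hz1⟩
      refine ⟨Ultrafilter.of (Filter.comap p w), ?_⟩
      apply Ultrafilter.coe_le_coe.1
      rw [Ultrafilter.coe_map]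
      exact (map_mono (Ultrafilter.of_le _)).trans map_comap_le
    have hv2 : Tendsto p v (𝓝 y) := by
      have : map p (v : Filter (Ioo (0 : ℝ) 1)) = (w : Filter X) := by
        rw [← hv]; rfl
      unfold Tendsto
      rw [this]
      exact hwy
    have hIcc : ∃ r ∈ Icc (0 : ℝ) 1, (v.map (Subtype.val) : Filter ℝ) ≤ 𝓝 r := by
      have hc : IsCompact (Icc (0 : ℝ) 1) := isCompact_Icc
      obtain ⟨r, hr, hr2⟩ := hc.ultrafilter_le_nhds (v.map Subtype.val) (by
        rw [le_principal_iff, Ultrafilter.mem_coe, Ultrafilter.mem_map]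
        apply Filter.univ_mem'
        intro t
        exact ⟨t.2.1.le, t.2.2.le⟩)
      exact ⟨r, hr, hr2⟩
    obtain ⟨r, hr, hr2⟩ := hIcc
    have hr3 : (v : Filter (Ioo (0 : ℝ) 1)) ≤ Filter.comap Subtype.val (𝓝 r) := by
      rw [← map_le_iff_le_comap]
      exact hr2
    rcases eq_or_lt_of_le hr.1 with h0 | h0
    · right; left
      subst h0
      exact tendsto_nhds_unique hv2 (ha.mono_left hr3)
    · rcases eq_or_lt_of_le hr.2 with h1 | h1
      · right; right
        subst h1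
        exact tendsto_nhds_unique hv2 (hb.mono_left hr3)
      · left
        have hr4 : (v : Filter (Ioo (0 : ℝ) 1)) ≤ 𝓝 ⟨r, h0, h1⟩ := by
          rw [nhds_subtype]
          exact hr3
        exact ⟨⟨r, h0, h1⟩, tendsto_nhds_unique ((hp.continuous.tendsto _).mono_left hr4) hv2⟩
  · apply union_subset subset_closure
    have : F1.NeBot := by
      have h := F0_neBot
      have h2 : Tendsto rv F0 F1 := by
        unfold F0 F1
        rw [tendsto_comap_iff]
        have h : Tendsto (fun t : ℝ => 1 - t) (𝓝 0) (𝓝 1) := by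
          have hc : Continuous fun t : ℝ => 1 - t := by fun_prop
          have := hc.tendsto 0
          rwa [sub_zero] at this
        exact h.comp tendsto_comap
      exact h2.neBot
    rintro y (rfl | rfl)
    · exact mem_closure_of_tendsto ha (Eventually.of_forall fun t => mem_range_self t)
    · exact mem_closure_of_tendsto hb (Eventually.of_forall fun t => mem_range_self t)

omit [CompactSpace X] [LocallyConnectedSpace X] in
theorem isOpenEmbedding_param {e : Set X} (he : IsOpen e) (φ : e ≃ₜ Ioo (0 : ℝ) 1) :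
    IsOpenEmbedding (fun t : Ioo (0 : ℝ) 1 => ((φ.symm t : e) : X)) :=
  he.isOpenEmbedding_subtypeVal.comp φ.symm.isOpenEmbedding

omit [CompactSpace X] [LocallyConnectedSpace X] in
theorem range_param {e : Set X} (φ : e ≃ₜ Ioo (0 : ℝ) 1) :
    range (fun t : Ioo (0 : ℝ) 1 => ((φ.symm t : e) : X)) = e := by
  ext x
  constructor
  · rintro ⟨t, rfl⟩
    exact (φ.symm t).2
  · intro hx
    exact ⟨φ ⟨x, hx⟩, by simp⟩

theorem free1 : Free1Stmt X := by
  intro e he φ
  have hp := isOpenEmbedding_param he φ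
  obtain ⟨a, ha, ha2⟩ := lim0 hp
  obtain ⟨b, hb, hb2⟩ := lim1 hp
  have hcl := closure_range hp ha2 hb2
  rw [range_param φ] at ha hb hcl
  exact ⟨a, b, ha, hb, hcl, ha2, hb2⟩

end Pool.Agent.EU.H80
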