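import Pool.Agent.Helper80_EU.Free3

/-! # FREE2: different edges are disjoint, unless the space is a circle (helper80) -/

open Set Metric Topology Filter

noncomputable section

namespace Pool.Agent.EU.H80

universe u

variable {X : Type u} [MetricSpace X]

/-- `f` restricted to `(a, b)` is an open embedding -/
structure OE (f : ℝ → X) (a b : ℝ) : Prop where
  inj : InjOn f (Ioo a b)
  loc : ∀ s ∈ Ioo a b, map f (𝓝 s) = 𝓝 (f s)

/-- the inverse -/
def iv (f : ℝ → X) (a b : ℝ) : X → ℝ := Function.invFunOn f (Ioo a b)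

theorem iv_apply {f : ℝ → X} {a b : ℝ} (h : OE f a b) {s : ℝ} (hs : s ∈ Ioo a b) :
    iv f a b (f s) = s := by
  have h1 : f s ∈ f '' Ioo a b := ⟨s, hs, rfl⟩
  exact h.inj (Function.invFunOn_mem h1) hs (Function.invFunOn_eq h1)

omit [MetricSpace X] in
theorem iv_mem {f : ℝ → X} {a b : ℝ} {x : X} (hx : x ∈ f '' Ioo a b) : iv f a b x ∈ Ioo a b :=
  Function.invFunOn_mem hx

omit [MetricSpace X] in
theorem iv_eq {f : ℝ → X} {a b : ℝ} {x : X} (hx : x ∈ f '' Ioo a b) : f (iv f a b x) = x :=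
  Function.invFunOn_eq hx

theorem iv_loc {f : ℝ → X} {a b : ℝ} (h : OE f a b) {s : ℝ} (hs : s ∈ Ioo a b) :
    map (iv f a b) (𝓝 (f s)) = 𝓝 s := by
  rw [← h.loc s hs, map_map]
  have : iv f a b ∘ f =ᶠ[𝓝 s] id := by
    filter_upwards [isOpen_Ioo.mem_nhds hs] with t ht
    exact iv_apply h ht
  rw [map_congr this, map_id]

theorem OE.contAt {f : ℝ → X} {a b : ℝ} (h : OE f a b) {s : ℝ} (hs : s ∈ Ioo a b) :
    ContinuousAt f s := (h.loc s hs).le

theorem OE.contOn {f : ℝ → X} {a b : ℝ} (h : OE f a b) : ContinuousOn f (Ioo a b) :=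
  fun _ hs => (h.contAt hs).continuousWithinAt

theorem OE.isOpen {f : ℝ → X} {a b : ℝ} (h : OE f a b) {U : Set ℝ} (hU : IsOpen U)
    (hUs : U ⊆ Ioo a b) : IsOpen (f '' U) := by
  rw [isOpen_iff_mem_nhds]
  rintro _ ⟨s, hs, rfl⟩
  rw [← h.loc s (hUs hs)]
  exact image_mem_map (hU.mem_nhds hs)

theorem OE.free {f : ℝ → X} {a b : ℝ} (h : OE f a b) (hab : a < b) :
    IsFreeArc (f '' Ioo a b) := by
  apply freeArc_of_coord (h.isOpen isOpen_Ioo Subset.rfl) (isPreconnected_Ioo.image _ h.contOn)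
    ((nonempty_Ioo.2 hab).image _) (iv f a b)
  · intro x hx y hy hxy
    rw [← iv_eq hx, ← iv_eq hy, hxy]
  · rintro _ ⟨s, hs, rfl⟩
    rw [iv_loc h hs, iv_apply h hs]

/-- reversal -/
theorem OE.rev {f : ℝ → X} (h : OE f 0 1) : OE (fun t => f (1 - t)) 0 1 := by
  constructor
  · intro s hs t ht hst
    have := h.inj (⟨by linarith [hs.2], by linarith [hs.1]⟩ : 1 - s ∈ Ioo (0 : ℝ) 1)
      (⟨by linarith [ht.2], by linarith [ht.1]⟩ : 1 - t ∈ Ioo (0 : ℝ) 1) hst
    linarith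
  · intro s hs
    have h1 := h.loc (1 - s) ⟨by linarith [hs.2], by linarith [hs.1]⟩
    have h2 : map (fun t : ℝ => 1 - t) (𝓝 s) = 𝓝 (1 - s) :=
      (Homeomorph.subLeft (1 : ℝ)).map_nhds_eq s
    have h3 : map (fun t => f (1 - t)) (𝓝 s) = map f (map (fun t : ℝ => 1 - t) (𝓝 s)) := by
      rw [map_map]
      rfl
    rw [h3, h2, h1]

omit [MetricSpace X] in
theorem rev_image {f : ℝ → X} (S T : Set ℝ) (h : ∀ t, t ∈ S ↔ 1 - t ∈ T) :
    (fun t => f (1 - t)) '' S = f '' T := by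
  ext x
  constructor
  · rintro ⟨t, ht, rfl⟩
    exact ⟨1 - t, (h t).1 ht, rfl⟩
  · rintro ⟨t, ht, rfl⟩
    refine ⟨1 - t, (h _).2 (by rwa [sub_sub_cancel]), ?_⟩
    simp only [sub_sub_cancel]

omit [MetricSpace X] in
theorem rev_image01 {f : ℝ → X} : (fun t => f (1 - t)) '' Ioo 0 1 = f '' Ioo 0 1 :=
  rev_image _ _ fun t => by
    constructor <;> intro h <;> constructor <;> linarith [h.1, h.2]

theorem exists_param [CompactSpace X] [LocallyConnectedSpace X] {e : Set X} (he : IsFreeArc e) :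
    ∃ (f : ℝ → X) (a b : X), OE f 0 1 ∧ f '' Ioo 0 1 = e ∧ a ∉ e ∧ b ∉ e ∧
      closure e = e ∪ {a, b} ∧ Tendsto f (𝓝[>] 0) (𝓝 a) ∧ Tendsto f (𝓝[<] 1) (𝓝 b) := by
  classical
  obtain ⟨heo, ⟨φ⟩⟩ := he
  have hp := isOpenEmbedding_param heo φ
  have hr := range_param φ
  obtain ⟨a, b, ha, hb, hcl, hla, hlb⟩ := free1 e heo φ
  set p := (fun t : Ioo (0 : ℝ) 1 => ((φ.symm t : e) : X)) with hpd
  set f : ℝ → X := fun t => if h : t ∈ Ioo (0 : ℝ) 1 then p ⟨t, h⟩ else a with hf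
  have hfp : ∀ t (h : t ∈ Ioo (0 : ℝ) 1), f t = p ⟨t, h⟩ := fun t h => dif_pos h
  have hlocal : ∀ s ∈ Ioo (0 : ℝ) 1, map f (𝓝 s) = 𝓝 (f s) := by
    intro s hs
    have h1 : map (Subtype.val : Ioo (0 : ℝ) 1 → ℝ) (𝓝 ⟨s, hs⟩) = 𝓝 s :=
      isOpen_Ioo.isOpenEmbedding_subtypeVal.map_nhds_eq ⟨s, hs⟩
    have h2 : f ∘ (Subtype.val : Ioo (0 : ℝ) 1 → ℝ) = p := by
      funext t
      exact hfp t t.2
    rw [← h1, map_map, h2, hp.map_nhds_eq, hfp s hs]
  refine ⟨f, a, b, ⟨?_, hlocal⟩, ?_, ha, hb, hcl, ?_, ?_⟩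
  · intro s hs t ht hst
    rw [hfp s hs, hfp t ht] at hst
    exact congrArg Subtype.val (hp.injective hst)
  · rw [← hr]
    ext x
    constructor
    · rintro ⟨t, ht, rfl⟩
      rw [hfp t ht]
      exact mem_range_self _
    · rintro ⟨t, rfl⟩
      exact ⟨t, t.2, hfp t t.2⟩
  · have h1 : (𝓝[>] (0 : ℝ)) = map (Subtype.val : Ioo (0 : ℝ) 1 → ℝ)
        (Filter.comap Subtype.val (𝓝 0)) := by
      rw [map_comap, Subtype.range_coe_subtype]
      have : 𝓝[>] (0 : ℝ) = 𝓝[Ioo 0 1] 0 := (nhdsWithin_Ioo_eq_nhdsGT one_pos).symm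
      rw [this]
      rfl
    rw [h1, tendsto_map'_iff]
    have h2 : f ∘ (Subtype.val : Ioo (0 : ℝ) 1 → ℝ) = p := by
      funext t
      exact hfp t t.2
    rw [h2]
    exact hla
  · have h1 : (𝓝[<] (1 : ℝ)) = map (Subtype.val : Ioo (0 : ℝ) 1 → ℝ)
        (Filter.comap Subtype.val (𝓝 1)) := by
      rw [map_comap, Subtype.range_coe_subtype]
      have : 𝓝[<] (1 : ℝ) = 𝓝[Ioo 0 1] 1 := (nhdsWithin_Ioo_eq_nhdsLT one_pos).symm
      rw [this]
      rfl
    rw [h1, tendsto_map'_iff]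
    have h2 : f ∘ (Subtype.val : Ioo (0 : ℝ) 1 → ℝ) = p := by
      funext t
      exact hfp t t.2
    rw [h2]
    exact hlb

theorem strictMonoOn_nhds {h : ℝ → ℝ} {a b : ℝ} (hm : StrictMonoOn h (Ioo a b))
    (hc : ContinuousOn h (Ioo a b)) {s : ℝ} (hs : s ∈ Ioo a b) :
    map h (𝓝 s) = 𝓝 (h s) := by
  apply le_antisymm (hc.continuousAt (isOpen_Ioo.mem_nhds hs))
  intro U hU
  rw [mem_map] at hU
  have hU2 := inter_mem hU (isOpen_Ioo.mem_nhds hs)
  obtain ⟨ε, hε, hss⟩ := Metric.mem_nhds_iff.1 hU2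
  have h1 : Icc (s - ε / 2) (s + ε / 2) ⊆ h ⁻¹' U ∩ Ioo a b := by
    intro t ht
    apply hss
    rw [Metric.mem_ball, Real.dist_eq, abs_lt]
    constructor <;> linarith [ht.1, ht.2]
  have h2 : Icc (h (s - ε / 2)) (h (s + ε / 2)) ⊆ h '' Icc (s - ε / 2) (s + ε / 2) :=
    intermediate_value_Icc (by linarith) (hc.mono fun t ht => (h1 ht).2)
  have m1 : s - ε / 2 ∈ Ioo a b := (h1 ⟨le_rfl, by linarith⟩).2
  have m2 : s + ε / 2 ∈ Ioo a b := (h1 ⟨by linarith, le_rfl⟩).2
  have h3 : h (s - ε / 2) < h s := hm m1 hs (by linarith)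
  have h4 : h s < h (s + ε / 2) := hm hs m2 (by linarith)
  filter_upwards [Icc_mem_nhds h3 h4] with y hy
  obtain ⟨t, ht, rfl⟩ := h2 hy
  exact (h1 ht).1

/-- the core of FREE2 -/
theorem core [CompactSpace X] [ConnectedSpace X] {A : Set X} (hA : IsEdge A) {f g : ℝ → X}
    (hf : OE f 0 1) (hfA : f '' Ioo 0 1 = A) {p0 y : X} (hy : y ∉ A)
    (hcl : closure A = A ∪ {p0, y}) (h0 : Tendsto f (𝓝[>] 0) (𝓝 p0))
    (h1 : Tendsto f (𝓝[<] 1) (𝓝 y)) (hg : OE g 0 1) {τ : ℝ} (hτ : τ ∈ Ioo (0 : ℝ) 1)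
    (hgy : g τ = y) {t1 : ℝ} (ht1 : t1 ∈ Ico (0 : ℝ) 1)
    (hside : ∀ t ∈ Ioo t1 1, f t ∈ g '' Ioo 0 τ) :
    p0 = y ∧ univ = A ∪ {y} := by
  -- the transition
  set c : ℝ → ℝ := fun t => iv g 0 1 (f t) with hc
  have hIoo : ∀ t ∈ Ioo t1 1, t ∈ Ioo (0 : ℝ) 1 := fun t ht => ⟨ht1.1.trans_lt ht.1, ht.2⟩
  have hτ1 : ∀ s ∈ Ioo 0 τ, s ∈ Ioo (0 : ℝ) 1 := fun s hs => ⟨hs.1, hs.2.trans hτ.2⟩
  have hcmem : ∀ t ∈ Ioo t1 1, c t ∈ Ioo 0 τ ∧ g (c t) = f t := by
    intro t ht
    obtain ⟨s, hs, hst⟩ := hside t ht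
    have : c t = s := by
      rw [hc]
      simp only
      rw [← hst]
      exact iv_apply hg (hτ1 s hs)
    rw [this]
    exact ⟨hs, hst⟩
  have hccont : ContinuousOn c (Ioo t1 1) := by
    intro t ht
    apply ContinuousAt.continuousWithinAt
    obtain ⟨h2, h3⟩ := hcmem t ht
    have h4 : ContinuousAt (iv g 0 1) (f t) := by
      rw [← h3]
      have := iv_loc hg (hτ1 _ h2)
      unfold ContinuousAt
      rw [iv_apply hg (hτ1 _ h2)]
      exact this.le
    exact ContinuousAt.comp (f := f) h4 (hf.contAt (hIoo t ht))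
  have hclim : Tendsto c (𝓝[<] 1) (𝓝 τ) := by
    have h4 : Tendsto (iv g 0 1) (𝓝 y) (𝓝 τ) := by
      rw [← hgy]
      exact (iv_loc hg hτ).le
    exact h4.comp h1
  have hcinj : InjOn c (Ioo t1 1) := by
    intro s hs t ht hst
    apply hf.inj (hIoo s hs) (hIoo t ht)
    rw [← (hcmem s hs).2, ← (hcmem t ht).2, hst]
  have hcmono : StrictMonoOn c (Ioo t1 1) := by
    rcases hccont.strictMonoOn_of_injOn_Ioo ht1.2 hcinj with h | h
    · exact h
    · exfalso
      set t' := (t1 + 1) / 2 with ht'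
      have hm' : t' ∈ Ioo t1 1 := by
        rw [ht']
        constructor <;> linarith [ht1.2]
      have h2 : τ ≤ c t' := by
        apply le_of_tendsto hclim
        have : Ioo t' 1 ∈ 𝓝[<] (1 : ℝ) := Ioo_mem_nhdsLT hm'.2
        filter_upwards [this] with t ht
        exact (h hm' ⟨hm'.1.trans ht.1, ht.2⟩ ht.1).le
      exact absurd (hcmem t' hm').1.2 (not_lt.2 h2)
  set t2 := (t1 + 1) / 2 with ht2
  have hm2 : t2 ∈ Ioo t1 1 := by
    rw [ht2]
    constructor <;> linarith [ht1.2]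
  set σ2 := c t2 with hσ2
  obtain ⟨hσ2m, hσ2e⟩ := hcmem t2 hm2
  have hcover : ∀ σ ∈ Ioo σ2 τ, ∃ t ∈ Ioo t2 1, c t = σ ∧ f t = g σ := by
    intro σ hσ
    have h2 : ∀ᶠ t in 𝓝[<] (1 : ℝ), σ < c t := hclim.eventually_const_lt hσ.2
    have h3 : Ioo t2 1 ∈ 𝓝[<] (1 : ℝ) := Ioo_mem_nhdsLT hm2.2
    obtain ⟨t', ht', ht'2⟩ := (h2.and h3).exists
    have h4 : Icc t2 t' ⊆ Ioo t1 1 := fun s hs => ⟨hm2.1.trans_le hs.1, hs.2.trans_lt ht'2.2⟩
    obtain ⟨t, ht, hct⟩ := intermediate_value_Icc ht'2.1.le (hccont.mono h4) ⟨hσ.1.le, ht'.le⟩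
    have htm : t ∈ Ioo t2 1 := by
      refine ⟨lt_of_le_of_ne ht.1 ?_, ht.2.trans_lt ht'2.2⟩
      rintro rfl
      exact hσ.1.ne hct
    refine ⟨t, htm, hct, ?_⟩
    rw [← hct]
    exact ((hcmem t (h4 ht)).2).symm
  have hback : ∀ t ∈ Ioo t2 1, c t ∈ Ioo σ2 τ := by
    intro t ht
    have htm : t ∈ Ioo t1 1 := ⟨hm2.1.trans ht.1, ht.2⟩
    exact ⟨hcmono hm2 htm ht.1, (hcmem t htm).1.2⟩
  have hgA : ∀ σ ∈ Ioo σ2 τ, g σ ∈ A := by
    intro σ hσ
    obtain ⟨t, ht, -, h2⟩ := hcover σ hσ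
    rw [← h2, ← hfA]
    exact ⟨t, hIoo t ⟨hm2.1.trans ht.1, ht.2⟩, rfl⟩
  by_cases hcase : ∃ δ > 0, τ + δ ≤ 1 ∧ ∀ s ∈ Ioo τ (τ + δ), g s ∉ A
  · -- the arc can be extended
    exfalso
    obtain ⟨δ, hδ, hδ1, hδA⟩ := hcase
    set en := t2 + (τ + δ - σ2) with hen
    have hen2 : t2 < en := by
      rw [hen]
      linarith [hσ2m.2]
    set κ : ℝ → ℝ := fun s => c (min s t2) + max (s - t2) 0 with hκ
    have hκcont : ContinuousOn κ (Ioo t1 en) := by
      apply ContinuousOn.add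
      · apply hccont.comp (by fun_prop)
        intro s hs
        exact ⟨lt_min hs.1 hm2.1, (min_le_right _ _).trans_lt hm2.2⟩
      · fun_prop
    have hκle : ∀ s, s ≤ t2 → κ s = c s := by
      intro s hs
      rw [hκ]
      simp only
      rw [min_eq_left hs, max_eq_right (by linarith), add_zero]
    have hκge : ∀ s, t2 ≤ s → κ s = σ2 + (s - t2) := by
      intro s hs
      rw [hκ]
      simp only
      rw [min_eq_right hs, max_eq_left (by linarith)]
    have hκmono : StrictMonoOn κ (Ioo t1 en) := by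
      intro s hs t ht hst
      rcases le_total t t2 with h | h
      · rw [hκle s (hst.le.trans h), hκle t h]
        exact hcmono ⟨hs.1, (hst.le.trans h).trans_lt hm2.2⟩ ⟨ht.1, h.trans_lt hm2.2⟩ hst
      · rw [hκge t h]
        rcases le_total s t2 with h' | h'
        · rw [hκle s h']
          rcases h'.eq_or_lt with h'' | h''
          · rw [h'', ← hσ2]
            linarith
          · have := hcmono ⟨hs.1, h''.trans hm2.2⟩ hm2 h''
            rw [← hσ2] at this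
            linarith
        · rw [hκge s h']
          linarith
    have hκmem : ∀ s ∈ Ioo t1 en, κ s ∈ Ioo 0 (τ + δ) := by
      intro s hs
      rcases le_total s t2 with h | h
      · rw [hκle s h]
        have := (hcmem s ⟨hs.1, h.trans_lt hm2.2⟩).1
        exact ⟨this.1, by linarith [this.2]⟩
      · rw [hκge s h]
        refine ⟨by linarith [hσ2m.1], ?_⟩
        have := hs.2
        rw [hen] at this
        linarith
    set hh : ℝ → X := fun s => if s ≤ t2 then f s else g (κ s) with hhh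
    have hh1 : ∀ s, s ≤ t2 → hh s = f s := fun s hs => if_pos hs
    have hh2 : ∀ s ∈ Ioo t1 en, hh s = g (κ s) := by
      intro s hs
      rcases le_or_gt s t2 with h | h
      · rw [hh1 s h, hκle s h, (hcmem s ⟨hs.1, h.trans_lt hm2.2⟩).2]
      · exact if_neg (not_le.2 h)
    have hout : ∀ s ∈ Ioo t2 en, ∀ t ∈ Ioc 0 t2, hh s ≠ f t := by
      intro s hs t ht heq
      have hs' : s ∈ Ioo t1 en := ⟨hm2.1.trans hs.1, hs.2⟩
      rw [hh2 s hs', hκge s hs.1.le] at heq
      have hft : f t ∈ A := by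
        rw [← hfA]
        exact ⟨t, ⟨ht.1, ht.2.trans_lt hm2.2⟩, rfl⟩
      rcases lt_trichotomy (σ2 + (s - t2)) τ with h | h | h
      · obtain ⟨t', ht', -, h3⟩ := hcover (σ2 + (s - t2)) ⟨by linarith [hs.1], h⟩
        rw [← h3] at heq
        have := hf.inj (hIoo t' ⟨hm2.1.trans ht'.1, ht'.2⟩) ⟨ht.1, ht.2.trans_lt hm2.2⟩ heq
        linarith [ht'.1, ht.2]
      · rw [h, hgy] at heq
        exact hy (heq ▸ hft)
      · have h4 : σ2 + (s - t2) < τ + δ := by
          have := hs.2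
          rw [hen] at this
          linarith
        exact hδA _ ⟨h, h4⟩ (heq ▸ hft)
    have hOE : OE hh 0 en := by
      constructor
      · intro s hs t ht hst
        rcases le_or_gt s t2 with h | h <;> rcases le_or_gt t t2 with h' | h'
        · rw [hh1 s h, hh1 t h'] at hst
          exact hf.inj ⟨hs.1, h.trans_lt hm2.2⟩ ⟨ht.1, h'.trans_lt hm2.2⟩ hst
        · rw [hh1 s h] at hst
          exact absurd hst.symm (hout t ⟨h', ht.2⟩ s ⟨hs.1, h⟩)
        · rw [hh1 t h'] at hst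
          exact absurd hst (hout s ⟨h, hs.2⟩ t ⟨ht.1, h'⟩)
        · have hs' : s ∈ Ioo t1 en := ⟨hm2.1.trans h, hs.2⟩
          have ht' : t ∈ Ioo t1 en := ⟨hm2.1.trans h', ht.2⟩
          rw [hh2 s hs', hh2 t ht'] at hst
          have m1 := hκmem s hs'
          have m2 := hκmem t ht'
          exact hκmono.injOn hs' ht' (hg.inj ⟨m1.1, m1.2.trans_le hδ1⟩ ⟨m2.1, m2.2.trans_le hδ1⟩ hst)
      · intro s hs
        rcases lt_or_ge s t2 with h | h
        · have : hh =ᶠ[𝓝 s] f := by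
            filter_upwards [Iio_mem_nhds h] with t ht
            exact hh1 t (le_of_lt ht)
          rw [map_congr this, hh1 s h.le]
          exact hf.loc s ⟨hs.1, h.trans hm2.2⟩
        · have hs' : s ∈ Ioo t1 en := ⟨hm2.1.trans_le h, hs.2⟩
          have : hh =ᶠ[𝓝 s] g ∘ κ := by
            filter_upwards [isOpen_Ioo.mem_nhds hs'] with t ht
            exact hh2 t ht
          rw [map_congr this, ← map_map, strictMonoOn_nhds hκmono hκcont hs', hh2 s hs']
          have m1 := hκmem s hs'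
          exact hg.loc _ ⟨m1.1, m1.2.trans_le hδ1⟩
    have hen0 : 0 < en := by linarith [ht1.1, hm2.1]
    have hfree := hOE.free hen0
    have hsub : A ⊆ hh '' Ioo 0 en := by
      rw [← hfA]
      rintro _ ⟨t, ht, rfl⟩
      rcases le_or_gt t t2 with h | h
      · exact ⟨t, ⟨ht.1, h.trans_lt hen2⟩, hh1 t h⟩
      · have htm : t ∈ Ioo t2 1 := ⟨h, ht.2⟩
        have hct := hback t htm
        have hs' : t2 + (c t - σ2) ∈ Ioo t1 en := by
          constructor
          · linarith [hm2.1, hct.1]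
          · rw [hen]
            linarith [hct.2]
        refine ⟨t2 + (c t - σ2), ⟨by linarith [ht1.1, hs'.1], hs'.2⟩, ?_⟩
        rw [hh2 _ hs', hκge _ (by linarith [hct.1])]
        rw [show σ2 + (t2 + (c t - σ2) - t2) = c t by ring]
        exact (hcmem t ⟨hm2.1.trans h, ht.2⟩).2
    have hyin : y ∈ hh '' Ioo 0 en := by
      have hs' : t2 + (τ - σ2) ∈ Ioo t1 en := by
        constructor
        · linarith [hm2.1, hσ2m.2]
        · rw [hen]
          linarith
      refine ⟨t2 + (τ - σ2), ⟨by linarith [ht1.1, hs'.1], hs'.2⟩, ?_⟩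
      rw [hh2 _ hs', hκge _ (by linarith [hσ2m.2]),
        show σ2 + (t2 + (τ - σ2) - t2) = τ by ring, hgy]
    have := hA.2 _ hfree hsub
    rw [this] at hyin
    exact hy hyin
  · push Not at hcase
    -- the other side belongs to `A`
    obtain ⟨δ, hδ, hδ1, hδp⟩ : ∃ δ > 0, τ + δ ≤ 1 ∧ ∀ s ∈ Ioo τ (τ + δ), g s ≠ p0 := by
      by_cases hp : ∃ r ∈ Ioo τ 1, g r = p0
      · obtain ⟨r, hr, hrp⟩ := hp
        refine ⟨r - τ, by linarith [hr.1], by linarith [hr.2], fun s hs hsp => ?_⟩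
        have : s = r := hg.inj ⟨hτ.1.trans hs.1, by linarith [hs.2, hr.2]⟩
          ⟨hτ.1.trans hr.1, hr.2⟩ (hsp.trans hrp.symm)
        rw [this] at hs
        linarith [hs.2]
      · push Not at hp
        refine ⟨1 - τ, by linarith [hτ.2], by linarith, fun s hs => hp s ⟨hs.1, by linarith [hs.2]⟩⟩
    obtain ⟨s0, hs0, hs0A⟩ := hcase δ hδ hδ1
    have hAo : IsOpen A := hA.1.1
    have hJ : ∀ s ∈ Ioo τ (τ + δ), s ∈ Ioo (0 : ℝ) 1 := fun s hs =>
      ⟨hτ.1.trans hs.1, hs.2.trans_le hδ1⟩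
    have hright : g '' Ioo τ (τ + δ) ⊆ A := by
      apply (isPreconnected_Ioo.image _ (hg.contOn.mono hJ)).subset_left_of_subset_union hAo
        isClosed_closure.isOpen_compl
      · rw [disjoint_compl_right_iff_subset]
        exact subset_closure
      · rintro _ ⟨s, hs, rfl⟩
        by_cases h : g s ∈ closure A
        · left
          rw [hcl] at h
          rcases h with h | h | h
          · exact h
          · exact absurd h (hδp s hs)
          · exfalso
            have h' : g s = y := h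
            rw [← hgy] at h'
            have := hg.inj (hJ s hs) hτ h'
            linarith [hs.1]
        · exact Or.inr h
      · exact ⟨g s0, ⟨s0, hs0, rfl⟩, hs0A⟩
    have hyp : p0 = y := by
      set w : ℝ → ℝ := fun s => iv f 0 1 (g s) with hw
      have hwm : ∀ s ∈ Ioo τ (τ + δ), w s ∈ Ioo (0 : ℝ) 1 ∧ f (w s) = g s := by
        intro s hs
        have h2 : g s ∈ f '' Ioo 0 1 := by
          rw [hfA]
          exact hright ⟨s, hs, rfl⟩
        exact ⟨iv_mem h2, iv_eq h2⟩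
      have hL : Ioo τ (τ + δ) ∈ 𝓝[>] τ := Ioo_mem_nhdsGT (by linarith)
      set v : Ultrafilter ℝ := Ultrafilter.of (𝓝[>] τ) with hv
      have hvL : (v : Filter ℝ) ≤ 𝓝[>] τ := Ultrafilter.of_le _
      have hvJ : Ioo τ (τ + δ) ∈ v := hvL hL
      obtain ⟨r, hr, hr2⟩ := (isCompact_Icc (a := (0 : ℝ)) (b := 1)).ultrafilter_le_nhds (v.map w) (by
        rw [le_principal_iff, Ultrafilter.mem_coe, Ultrafilter.mem_map]
        filter_upwards [hvJ] with s hs
        exact Ioo_subset_Icc_self (hwm s hs).1)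
      have hwr : Tendsto w v (𝓝 r) := hr2
      have hgv : Tendsto g v (𝓝 y) := by
        have h2 : Tendsto g (𝓝 τ) (𝓝 (g τ)) := hg.contAt hτ
        rw [hgy] at h2
        exact h2.mono_left (hvL.trans nhdsWithin_le_nhds)
      have hfwv : Tendsto (fun s => f (w s)) v (𝓝 y) := by
        apply hgv.congr'
        filter_upwards [hvJ] with s hs
        exact (hwm s hs).2.symm
      rcases hr.1.eq_or_lt with h2 | h2
      · have h3 : Tendsto w v (𝓝[>] 0) := by
          rw [tendsto_nhdsWithin_iff]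
          refine ⟨by rw [h2]; exact hwr, ?_⟩
          filter_upwards [hvJ] with s hs
          exact (hwm s hs).1.1
        exact tendsto_nhds_unique (h0.comp h3) hfwv
      · exfalso
        rcases hr.2.eq_or_lt with h3 | h3
        · have h4 : ∀ᶠ s in (v : Filter ℝ), t2 < w s :=
            hwr.eventually_const_lt (by rw [h3]; exact hm2.2)
          obtain ⟨s, hs1, hs2⟩ := (h4.and hvJ).exists
          obtain ⟨h5, h6⟩ := hwm s hs2
          have h7 := hback (w s) ⟨hs1, h5.2⟩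
          have h8 := (hcmem (w s) ⟨hm2.1.trans hs1, h5.2⟩).2
          rw [h6] at h8
          have h9 := hg.inj ⟨hσ2m.1.trans h7.1, h7.2.trans hτ.2⟩ (hJ s hs2) h8
          linarith [hs2.1, h7.2]
        · have h4 : Tendsto f (𝓝 r) (𝓝 (f r)) := hf.contAt ⟨h2, h3⟩
          have h5 := tendsto_nhds_unique (h4.comp hwr) hfwv
          apply hy
          rw [← h5, ← hfA]
          exact ⟨r, ⟨h2, h3⟩, rfl⟩
    refine ⟨hyp, ?_⟩
    have hclosed : IsClosed (A ∪ {y}) := by
      have : A ∪ {y} = closure A := by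
        rw [hcl, hyp]
        simp
      rw [this]
      exact isClosed_closure
    have hopen : IsOpen (A ∪ {y}) := by
      have : A ∪ {y} = A ∪ g '' Ioo σ2 (τ + δ) := by
        apply Subset.antisymm
        · rintro x (hx | hx)
          · exact Or.inl hx
          · right
            have hx' : x = y := hx
            rw [hx', ← hgy]
            exact ⟨τ, ⟨hσ2m.2, by linarith⟩, rfl⟩
        · rintro x (hx | ⟨s, hs, rfl⟩)
          · exact Or.inl hx
          · rcases lt_trichotomy s τ with h | h | h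
            · exact Or.inl (hgA s ⟨hs.1, h⟩)
            · right
              rw [h, hgy]
              exact mem_singleton _
            · exact Or.inl (hright ⟨s, ⟨h, hs.2⟩, rfl⟩)
      rw [this]
      exact hAo.union (hg.isOpen isOpen_Ioo fun s hs =>
        ⟨hσ2m.1.trans hs.1, hs.2.trans_le hδ1⟩)
    have hclopen : IsClopen (A ∪ {y}) := ⟨hclosed, hopen⟩
    exact (IsClopen.eq_univ hclopen ⟨y, Or.inr rfl⟩).symm

/-- a compact space consisting of a free arc whose ends converge to one point is a circle -/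
theorem circle_of [CompactSpace X] {f : ℝ → X} (hf : OE f 0 1) {y : X}
    (hy : y ∉ f '' Ioo 0 1) (h0 : Tendsto f (𝓝[>] 0) (𝓝 y)) (h1 : Tendsto f (𝓝[<] 1) (𝓝 y))
    (huniv : univ = f '' Ioo 0 1 ∪ {y}) : Nonempty (X ≃ₜ Circle) := by
  classical
  have : Fact ((0 : ℝ) < 1) := ⟨one_pos⟩
  set F : ℝ → X := fun t => if t ∈ Ioo (0 : ℝ) 1 then f t else y with hF
  have hFin : ∀ t ∈ Ioo (0 : ℝ) 1, F t = f t := fun t ht => if_pos ht
  have hFout : ∀ t, t ∉ Ioo (0 : ℝ) 1 → F t = y := fun t ht => if_neg ht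
  have hF0 : F 0 = y := hFout 0 (by simp)
  have hF1 : F (0 + 1) = y := hFout (0 + 1) (by simp)
  have hcont : ContinuousOn F (Icc 0 (0 + 1)) := by
    rw [zero_add]
    intro t ht
    rcases ht.1.eq_or_lt with h | h
    · subst h
      have h2 : ContinuousWithinAt F (Ici 0) 0 := by
        rw [← Ioi_insert, continuousWithinAt_insert_self]
        unfold ContinuousWithinAt
        rw [hF0]
        apply h0.congr'
        filter_upwards [Ioo_mem_nhdsGT one_pos] with s hs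
        exact (hFin s hs).symm
      exact h2.mono fun s hs => hs.1
    · rcases ht.2.eq_or_lt with h' | h'
      · rw [h']
        have h2 : ContinuousWithinAt F (Iic 1) 1 := by
          rw [← Iio_insert, continuousWithinAt_insert_self]
          unfold ContinuousWithinAt
          rw [hFout 1 (by simp)]
          apply h1.congr'
          filter_upwards [Ioo_mem_nhdsLT one_pos] with s hs
          exact (hFin s hs).symm
        exact h2.mono fun s hs => hs.2
      · apply ContinuousAt.continuousWithinAt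
        apply (hf.contAt ⟨h, h'⟩).congr
        filter_upwards [isOpen_Ioo.mem_nhds (⟨h, h'⟩ : t ∈ Ioo (0 : ℝ) 1)] with s hs
        exact (hFin s hs).symm
  have hLc : Continuous (AddCircle.liftIco (1 : ℝ) 0 F) :=
    AddCircle.liftIco_continuous (by rw [hF0, hF1]) hcont
  have hLa : ∀ t ∈ Ico (0 : ℝ) 1, AddCircle.liftIco (1 : ℝ) 0 F (t : AddCircle (1 : ℝ)) = F t := by
    intro t ht
    exact AddCircle.liftIco_coe_apply (by rwa [zero_add])
  have hrep : ∀ z : AddCircle (1 : ℝ), ∃ t ∈ Ico (0 : ℝ) 1, (t : AddCircle (1 : ℝ)) = z := by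
    intro z
    have h2 := (AddCircle.equivIco (1 : ℝ) 0 z).2
    exact ⟨_, ⟨h2.1, h2.2.trans_eq (zero_add _)⟩, (AddCircle.equivIco (1 : ℝ) 0).symm_apply_apply z⟩
  have hinj : Function.Injective (AddCircle.liftIco (1 : ℝ) 0 F) := by
    intro a b hab
    obtain ⟨s, hs, rfl⟩ := hrep a
    obtain ⟨t, ht, rfl⟩ := hrep b
    rw [hLa s hs, hLa t ht] at hab
    congr 1
    rcases hs.1.eq_or_lt with h | h <;> rcases ht.1.eq_or_lt with h' | h'
    · rw [← h, ← h']
    · exfalso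
      rw [← h, hF0, hFin t ⟨h', ht.2⟩] at hab
      exact hy ⟨t, ⟨h', ht.2⟩, hab.symm⟩
    · exfalso
      rw [← h', hF0, hFin s ⟨h, hs.2⟩] at hab
      exact hy ⟨s, ⟨h, hs.2⟩, hab⟩
    · rw [hFin s ⟨h, hs.2⟩, hFin t ⟨h', ht.2⟩] at hab
      exact hf.inj ⟨h, hs.2⟩ ⟨h', ht.2⟩ hab
  have hsurj : Function.Surjective (AddCircle.liftIco (1 : ℝ) 0 F) := by
    intro x
    have hx : x ∈ f '' Ioo 0 1 ∪ {y} := by
      rw [← huniv]
      exact mem_univ x
    rcases hx with ⟨t, ht, rfl⟩ | hx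
    · exact ⟨(t : AddCircle (1 : ℝ)), by rw [hLa t ⟨ht.1.le, ht.2⟩, hFin t ht]⟩
    · refine ⟨((0 : ℝ) : AddCircle (1 : ℝ)), ?_⟩
      rw [hLa 0 ⟨le_rfl, one_pos⟩, hF0]
      exact (mem_singleton_iff.1 hx).symm
  have hom := Continuous.homeoOfEquivCompactToT2 (f := Equiv.ofBijective _ ⟨hinj, hsurj⟩) hLc
  exact ⟨hom.symm.trans (AddCircle.homeomorphCircle one_ne_zero)⟩

theorem free2 [CompactSpace X] [ConnectedSpace X] [LocallyConnectedSpace X] : Free2Stmt X := by
  by_contra hcon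
  unfold Free2Stmt at hcon
  push Not at hcon
  obtain ⟨hnc, A, B, hA, hB, hAB, hdis⟩ := hcon
  obtain ⟨f, p0, p1, hf, hfA, hp0, hp1, hcl, h0, h1⟩ := exists_param hA.1
  obtain ⟨g, -, -, hg, hgB, -, -, -, -, -⟩ := exists_param hB.1
  -- a point of `B` on the frontier of `A`
  have hBA : ¬ B ⊆ A := fun h => hAB (hB.2 A hA.1 h)
  obtain ⟨y, hyB, hyA, hycl⟩ : ∃ y ∈ B, y ∉ A ∧ y ∈ closure A := by
    by_contra hno
    push Not at hno
    apply hBA
    have hBc : IsPreconnected B := by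
      rw [← hgB]
      exact isPreconnected_Ioo.image _ hg.contOn
    apply hBc.subset_left_of_subset_union hA.1.1 isClosed_closure.isOpen_compl
    · rw [disjoint_compl_right_iff_subset]
      exact subset_closure
    · intro x hx
      by_cases h : x ∈ A
      · exact Or.inl h
      · exact Or.inr (hno x hx h)
    · rw [not_disjoint_iff] at hdis
      obtain ⟨x, hx1, hx2⟩ := hdis
      exact ⟨x, hx2, hx1⟩
  -- orientation of `f`
  obtain ⟨f, p0, hf, hfA, hcl, h0, h1⟩ : ∃ (f : ℝ → X) (p0 : X), OE f 0 1 ∧ f '' Ioo 0 1 = A ∧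
      closure A = A ∪ {p0, y} ∧ Tendsto f (𝓝[>] 0) (𝓝 p0) ∧ Tendsto f (𝓝[<] 1) (𝓝 y) := by
    have hyy := hycl
    rw [hcl] at hyy
    rcases hyy with h | h | h
    · exact absurd h hyA
    · have h' : y = p0 := h
      subst h'
      refine ⟨fun t => f (1 - t), p1, hf.rev, by rw [rev_image01, hfA], ?_, ?_, ?_⟩
      · rw [hcl, pair_comm]
      · apply h1.comp
        rw [tendsto_nhdsWithin_iff]
        refine ⟨?_, ?_⟩
        · have hc : Continuous fun t : ℝ => 1 - t := by fun_prop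
          have := hc.tendsto 0
          rw [sub_zero] at this
          exact this.mono_left nhdsWithin_le_nhds
        · filter_upwards [self_mem_nhdsWithin] with t ht
          have : 0 < t := ht
          show 1 - t < 1
          linarith
      · apply h0.comp
        rw [tendsto_nhdsWithin_iff]
        refine ⟨?_, ?_⟩
        · have hc : Continuous fun t : ℝ => 1 - t := by fun_prop
          have := hc.tendsto 1
          rw [sub_self] at this
          exact this.mono_left nhdsWithin_le_nhds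
        · filter_upwards [self_mem_nhdsWithin] with t ht
          have : t < 1 := ht
          show 0 < 1 - t
          linarith
    · have h' : y = p1 := h
      subst h'
      exact ⟨f, p0, hf, hfA, hcl, h0, h1⟩
  -- position of `y` in `B`
  have hy2 := hyB
  rw [← hgB] at hy2
  obtain ⟨τ, hτ, hgτ⟩ := hy2
  have hBo : IsOpen B := hB.1.1
  obtain ⟨t1, ht1, hsub⟩ : ∃ t1 ∈ Ico (0 : ℝ) 1, ∀ t ∈ Ioo t1 1, f t ∈ B := by
    have h2 : ∀ᶠ t in 𝓝[<] (1 : ℝ), f t ∈ B := h1 (hBo.mem_nhds hyB)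
    obtain ⟨l, hl, hl2⟩ := (mem_nhdsLT_iff_exists_Ioo_subset' (a := 1) (l' := (0 : ℝ)) one_pos).1 h2
    refine ⟨max l 0, ⟨le_max_right _ _, max_lt hl one_pos⟩, fun t ht => ?_⟩
    exact hl2 ⟨(le_max_left _ _).trans_lt ht.1, ht.2⟩
  have hI : ∀ t ∈ Ioo t1 1, t ∈ Ioo (0 : ℝ) 1 := fun t ht => ⟨ht1.1.trans_lt ht.1, ht.2⟩
  -- the transition avoids `τ`
  have hB2 : ∀ t ∈ Ioo t1 1, iv g 0 1 (f t) ∈ Ioo (0 : ℝ) 1 ∧ g (iv g 0 1 (f t)) = f t := by
    intro t ht
    have h2 : f t ∈ g '' Ioo 0 1 := by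
      rw [hgB]
      exact hsub t ht
    exact ⟨iv_mem h2, iv_eq h2⟩
  have hpre : IsPreconnected ((fun t => iv g 0 1 (f t)) '' Ioo t1 1) := by
    apply isPreconnected_Ioo.image
    intro t ht
    apply ContinuousAt.continuousWithinAt
    obtain ⟨h2, h3⟩ := hB2 t ht
    have h4 : ContinuousAt (iv g 0 1) (f t) := by
      rw [← h3]
      unfold ContinuousAt
      rw [iv_apply hg h2]
      exact (iv_loc hg h2).le
    exact ContinuousAt.comp (f := f) h4 (hf.contAt (hI t ht))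
  have hne : ∀ t ∈ Ioo t1 1, iv g 0 1 (f t) ≠ τ := by
    intro t ht h
    apply hyA
    rw [← hgτ, ← h, (hB2 t ht).2, ← hfA]
    exact ⟨t, hI t ht, rfl⟩
  have hdich : (∀ t ∈ Ioo t1 1, iv g 0 1 (f t) < τ) ∨ ∀ t ∈ Ioo t1 1, τ < iv g 0 1 (f t) := by
    by_contra h
    push Not at h
    obtain ⟨⟨s, hs, hs2⟩, ⟨t, ht, ht2⟩⟩ := h
    have h2 := hpre.ordConnected.out ⟨t, ht, rfl⟩ ⟨s, hs, rfl⟩ ⟨ht2, hs2⟩
    obtain ⟨r, hr, hr2⟩ := h2
    exact hne r hr hr2
  have main : p0 = y ∧ univ = A ∪ {y} := by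
    rcases hdich with h | h
    · apply core hA hf hfA hyA hcl h0 h1 hg hτ hgτ ht1
      intro t ht
      exact ⟨_, ⟨(hB2 t ht).1.1, h t ht⟩, (hB2 t ht).2⟩
    · apply core hA hf hfA hyA hcl h0 h1 hg.rev (τ := 1 - τ)
        ⟨by linarith [hτ.2], by linarith [hτ.1]⟩ (by simp only [sub_sub_cancel]; exact hgτ) ht1
      intro t ht
      refine ⟨1 - iv g 0 1 (f t), ⟨by linarith [(hB2 t ht).1.2], by linarith [h t ht]⟩, ?_⟩
      simp only [sub_sub_cancel]
      exact (hB2 t ht).2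
  obtain ⟨hpy, huniv⟩ := main
  rw [hpy] at h0
  rw [← hfA] at huniv hyA
  obtain ⟨hh⟩ := circle_of hf hyA h0 h1 huniv
  exact hnc.elim hh

end Pool.Agent.EU.H80
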