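import Pool.Agent.Helper80_EU.Free1

/-! # FREE3: every free arc lies in a maximal free arc (helper80) -/

open Set Metric Topology unitInterval Filter

noncomputable section

namespace Pool.Agent.EU.H80

universe u

variable {X : Type u} [MetricSpace X]

/-! ### Open connected subsets of the line -/

/-- a bounded increasing coordinate on the line -/
def sg (t : ℝ) : ℝ := (Real.arctan t) / Real.pi + 1 / 2

theorem sg_mono : StrictMono sg := by
  intro s t h
  unfold sg
  have := Real.arctan_strictMono h
  have hp := Real.pi_pos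
  have : Real.arctan s / Real.pi < Real.arctan t / Real.pi := by gcongr
  linarith

theorem sg_cont : Continuous sg := by
  unfold sg
  exact (Real.continuous_arctan.div_const _).add_const _

theorem sg_mem (t : ℝ) : sg t ∈ Ioo (0 : ℝ) 1 := by
  unfold sg
  have h1 := Real.neg_pi_div_two_lt_arctan t
  have h2 := Real.arctan_lt_pi_div_two t
  have hp := Real.pi_pos
  constructor
  · have : -(1 / 2 : ℝ) < Real.arctan t / Real.pi := by
      rw [lt_div_iff₀ hp]; linarith
    linarith
  · have : Real.arctan t / Real.pi < (1 / 2 : ℝ) := by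
      rw [div_lt_iff₀ hp]; linarith
    linarith

theorem sg_surj {v : ℝ} (hv : v ∈ Ioo (0 : ℝ) 1) : ∃ t, sg t = v := by
  refine ⟨Real.tan (Real.pi * (v - 1 / 2)), ?_⟩
  have hp := Real.pi_pos
  unfold sg
  rw [Real.arctan_tan]
  · field_simp
    ring
  · have := hv.1
    nlinarith
  · have := hv.2
    nlinarith

theorem open_conn_eq {S : Set ℝ} (ho : IsOpen S) (hc : IsPreconnected S) (hne : S.Nonempty)
    (hb : BddBelow S) (hb' : BddAbove S) : S = Ioo (sInf S) (sSup S) := by
  apply Subset.antisymm
  · intro x hx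
    obtain ⟨ε, hε, hs⟩ := Metric.isOpen_iff.1 ho x hx
    constructor
    · have h1 : x - ε / 2 ∈ S := hs (by
        rw [Metric.mem_ball, Real.dist_eq]
        rw [show x - ε / 2 - x = -(ε / 2) by ring, abs_neg, abs_of_pos (by positivity)]
        linarith)
      have := csInf_le hb h1
      linarith
    · have h1 : x + ε / 2 ∈ S := hs (by
        rw [Metric.mem_ball, Real.dist_eq]
        rw [show x + ε / 2 - x = ε / 2 by ring, abs_of_pos (by positivity)]
        linarith)
      have := le_csSup hb' h1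
      linarith
  · intro x hx
    obtain ⟨a, ha, hax⟩ := exists_lt_of_csInf_lt hne hx.1
    obtain ⟨b, hb, hbx⟩ := exists_lt_of_lt_csSup hne hx.2
    exact hc.ordConnected.out ha hb ⟨hax.le, hbx.le⟩

/-- affine homeomorphism of intervals -/
def aff {a b : ℝ} (h : a < b) : Ioo a b ≃ₜ Ioo (0 : ℝ) 1 where
  toFun t := ⟨((t : ℝ) - a) / (b - a), by
    have h1 : 0 < b - a := sub_pos.2 h
    have h2 := t.2.1
    have h3 := t.2.2
    constructor
    · apply div_pos <;> linarith
    · rw [div_lt_one h1]; linarith⟩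
  invFun t := ⟨a + (b - a) * t, by
    have h1 : 0 < b - a := sub_pos.2 h
    have h2 := t.2.1
    have h3 := t.2.2
    constructor
    · nlinarith
    · nlinarith⟩
  left_inv t := by
    have h1 : b - a ≠ 0 := (sub_pos.2 h).ne'
    ext
    simp only
    field_simp
    ring
  right_inv t := by
    have h1 : b - a ≠ 0 := (sub_pos.2 h).ne'
    ext
    simp only
    field_simp
    ring
  continuous_toFun := by
    apply Continuous.subtype_mk
    fun_prop
  continuous_invFun := by fun_prop

theorem strictMono_nhds {h : ℝ → ℝ} (hm : StrictMono h) (hc : Continuous h) (s : ℝ) :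
    map h (𝓝 s) = 𝓝 (h s) := by
  apply le_antisymm (hc.tendsto s)
  intro U hU
  rw [mem_map] at hU
  obtain ⟨ε, hε, hs⟩ := Metric.mem_nhds_iff.1 hU
  have h1 : Icc (s - ε / 2) (s + ε / 2) ⊆ h ⁻¹' U := by
    intro t ht
    apply hs
    rw [Metric.mem_ball, Real.dist_eq, abs_lt]
    constructor <;> linarith [ht.1, ht.2]
  have h2 : Icc (h (s - ε / 2)) (h (s + ε / 2)) ⊆ h '' Icc (s - ε / 2) (s + ε / 2) :=
    intermediate_value_Icc (by linarith) hc.continuousOn
  have h3 : h (s - ε / 2) < h s := hm (by linarith)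
  have h4 : h s < h (s + ε / 2) := hm (by linarith)
  filter_upwards [Icc_mem_nhds h3 h4] with y hy
  obtain ⟨t, ht, rfl⟩ := h2 hy
  exact h1 ht

/-- an open connected set with an injective local homeomorphism to the line is a free arc -/
theorem freeArc_of_coord {E : Set X} (hE : IsOpen E) (hc : IsPreconnected E) (hne : E.Nonempty)
    (g : X → ℝ) (hinj : InjOn g E) (hloc : ∀ x ∈ E, map g (𝓝 x) = 𝓝 (g x)) : IsFreeArc E := by
  refine ⟨hE, ?_⟩
  set k : E → ℝ := fun x => sg (g x) with hk
  have hkloc : ∀ x : E, map k (𝓝 x) = 𝓝 (k x) := by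
    intro x
    have h1 : map (Subtype.val : E → X) (𝓝 x) = 𝓝 (x : X) := hE.isOpenEmbedding_subtypeVal.map_nhds_eq x
    have h2 : map k (𝓝 x) = map sg (map g (map (Subtype.val : E → X) (𝓝 x))) := by
      rw [map_map, map_map]
      rfl
    rw [h2, h1, hloc x x.2, strictMono_nhds sg_mono sg_cont]
  have hkc : Continuous k := continuous_iff_continuousAt.2 fun x => (hkloc x).le
  have hki : Function.Injective k := by
    intro x y hxy
    exact Subtype.ext (hinj x.2 y.2 (sg_mono.injective hxy))
  have hko : IsOpenMap k := IsOpenMap.of_nhds_le fun x => (hkloc x).ge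
  have hemb : IsOpenEmbedding k := .of_continuous_injective_isOpenMap hkc hki hko
  have hEp : PreconnectedSpace E := isPreconnected_iff_preconnectedSpace.1 hc
  have hr1 : IsPreconnected (range k) := isPreconnected_range hkc
  obtain ⟨x0, hx0⟩ := hne
  have hr2 : (range k).Nonempty := ⟨_, ⟨⟨x0, hx0⟩, rfl⟩⟩
  have hb : BddBelow (range k) := ⟨0, by
    rintro _ ⟨x, rfl⟩
    exact (sg_mem _).1.le⟩
  have hb' : BddAbove (range k) := ⟨1, by
    rintro _ ⟨x, rfl⟩
    exact (sg_mem _).2.le⟩
  have heq := open_conn_eq hko.isOpen_range hr1 hr2 hb hb'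
  have hlt : sInf (range k) < sSup (range k) := by
    obtain ⟨y, hy⟩ := hr2
    rw [heq] at hy
    exact hy.1.trans hy.2
  exact ⟨(hemb.isEmbedding.toHomeomorph.trans (Homeomorph.setCongr heq)).trans (aff hlt)⟩

/-- the parametrisation of a free arc by the line -/
theorem freeArc_iff {e : Set X} : IsFreeArc e ↔ ∃ f : ℝ → X, IsOpenEmbedding f ∧ range f = e := by
  constructor
  · rintro ⟨he, ⟨φ⟩⟩
    have hp := isOpenEmbedding_param he φ
    have hr := range_param φ
    set p := (fun t : Ioo (0 : ℝ) 1 => ((φ.symm t : e) : X)) with hpd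
    have hsgo : IsOpenEmbedding (fun t : ℝ => (⟨sg t, sg_mem t⟩ : Ioo (0 : ℝ) 1)) := by
      apply IsOpenEmbedding.of_continuous_injective_isOpenMap
      · exact sg_cont.subtype_mk _
      · intro s t h
        exact sg_mono.injective (congrArg Subtype.val h)
      · intro U hU
        rw [isOpen_induced_iff]
        refine ⟨sg '' U, ?_, ?_⟩
        · exact (IsOpenMap.of_nhds_le fun s => (strictMono_nhds sg_mono sg_cont s).ge) U hU
        · ext y
          constructor
          · rintro ⟨t, ht, h⟩
            exact ⟨t, ht, Subtype.ext h⟩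
          · rintro ⟨t, ht, rfl⟩
            exact ⟨t, ht, rfl⟩
    refine ⟨_, hp.comp hsgo, ?_⟩
    rw [range_comp, ← hr]
    have : range (fun t : ℝ => (⟨sg t, sg_mem t⟩ : Ioo (0 : ℝ) 1)) = univ := by
      rw [range_eq_univ]
      intro y
      obtain ⟨t, ht⟩ := sg_surj y.2
      exact ⟨t, Subtype.ext ht⟩
    rw [this, image_univ]
  · rintro ⟨f, hf, rfl⟩
    have hloc : ∀ x ∈ range f, map (Function.invFun f) (𝓝 x) = 𝓝 (Function.invFun f x) := by
      rintro _ ⟨s, rfl⟩
      rw [← hf.map_nhds_eq, map_map, Function.invFun_comp hf.injective, map_id]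
      congr 1
      exact (Function.leftInverse_invFun hf.injective s).symm
    apply freeArc_of_coord hf.isOpen_range (isPreconnected_range hf.continuous) (range_nonempty f)
      (Function.invFun f) _ hloc
    rintro _ ⟨s, rfl⟩ _ ⟨t, rfl⟩ h
    rw [Function.leftInverse_invFun hf.injective, Function.leftInverse_invFun hf.injective] at h
    rw [h]

/-! ### Increasing unions -/

section union

variable {f : ℕ → ℝ → X} (hf : ∀ n, IsOpenEmbedding (f n))
  (hmono : ∀ n, range (f n) ⊆ range (f (n + 1))) {p q : X}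
  (hor : ∀ n, ∃ s t : ℝ, s < t ∧ f n s = p ∧ f n t = q)

omit [MetricSpace X] in
include hmono in
theorem range_mono {n m : ℕ} (h : n ≤ m) : range (f n) ⊆ range (f m) := by
  induction h with
  | refl => exact Subset.rfl
  | step _ ih => exact ih.trans (hmono _)

include hf hmono hor in
/-- the transition maps are strictly increasing -/
theorem trans_exists {n m : ℕ} (h : n ≤ m) : ∃ c : ℝ → ℝ, Continuous c ∧ StrictMono c ∧
    ∀ s, f m (c s) = f n s := by
  have hex : ∀ s, ∃ t, f m t = f n s := fun s => range_mono hmono h (mem_range_self s)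
  choose c hc using hex
  have hcc : Continuous c := by
    rw [(hf m).isEmbedding.continuous_iff]
    have : f m ∘ c = f n := funext hc
    rw [this]
    exact (hf n).continuous
  have hci : Function.Injective c := by
    intro s t hst
    apply (hf n).injective
    rw [← hc, ← hc, hst]
  refine ⟨c, hcc, ?_, hc⟩
  rcases hcc.strictMono_of_inj hci with h1 | h1
  · exact h1
  · exfalso
    obtain ⟨s, t, hst, hs, ht⟩ := hor n
    obtain ⟨s', t', hst', hs', ht'⟩ := hor m
    have h2 : c s = s' := (hf m).injective (by rw [hc, hs, hs'])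
    have h3 : c t = t' := (hf m).injective (by rw [hc, ht, ht'])
    have h4 := h1 hst
    rw [h2, h3] at h4
    exact lt_asymm h4 hst'

include hf hmono hor in
theorem transfer {n m : ℕ} {s t s' t' : ℝ} (hs : f n s = f m s') (ht : f n t = f m t')
    (hst : s < t) : s' < t' := by
  rcases le_total n m with h | h
  · obtain ⟨c, -, hc, hc2⟩ := trans_exists hf hmono hor h
    have h1 : c s = s' := (hf m).injective (by rw [hc2, hs])
    have h2 : c t = t' := (hf m).injective (by rw [hc2, ht])
    rw [← h1, ← h2]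
    exact hc hst
  · obtain ⟨c, -, hc, hc2⟩ := trans_exists hf hmono hor h
    have h1 : c s' = s := (hf n).injective (by rw [hc2, hs])
    have h2 : c t' = t := (hf n).injective (by rw [hc2, ht])
    rw [← h1, ← h2] at hst
    exact hc.lt_iff_lt.1 hst

include hf hmono hor in
theorem transfer_le {n m : ℕ} {s t s' t' : ℝ} (hs : f n s = f m s') (ht : f n t = f m t')
    (hst : s ≤ t) : s' ≤ t' := by
  rcases hst.eq_or_lt with h | h
  · subst h
    exact ((hf m).injective (hs.symm.trans ht)).le
  · exact (transfer hf hmono hor hs ht h).le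

/-- the order on the union -/
def le' (f : ℕ → ℝ → X) (x y : X) : Prop := ∃ n s t, s ≤ t ∧ f n s = x ∧ f n t = y

include hf hmono hor in
theorem le'_iff {m : ℕ} {s t : ℝ} : le' f (f m s) (f m t) ↔ s ≤ t := by
  constructor
  · rintro ⟨n, s', t', hst, hs, ht⟩
    exact transfer_le hf hmono hor hs ht hst
  · intro h
    exact ⟨m, s, t, h, rfl, rfl⟩

include hf hmono hor in
theorem le'_trans {x y z : X} (h1 : le' f x y) (h2 : le' f y z) : le' f x z := by
  obtain ⟨n, s, t, hst, rfl, rfl⟩ := h1
  obtain ⟨m, s', t', hst', hs', rfl⟩ := h2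
  have e1 : f n s ∈ range (f (max n m)) := range_mono hmono (le_max_left _ _) (mem_range_self s)
  have e2 : f n t ∈ range (f (max n m)) := range_mono hmono (le_max_left _ _) (mem_range_self t)
  have e3 : f m t' ∈ range (f (max n m)) := range_mono hmono (le_max_right _ _) (mem_range_self t')
  obtain ⟨a, ha⟩ := e1
  obtain ⟨b, hb⟩ := e2
  obtain ⟨c, hc⟩ := e3
  have h3 : a ≤ b := transfer_le hf hmono hor ha.symm hb.symm hst
  have h4 : b ≤ c := transfer_le hf hmono hor (hs'.trans hb.symm) hc.symm hst'
  exact ⟨max n m, a, c, h3.trans h4, ha, hc⟩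

/-- the coordinates -/
def gn (f : ℕ → ℝ → X) (n : ℕ) (x : X) : ℝ := sSup (insert 0 {v | ∃ t, v = sg t ∧ le' f (f n t) x})

omit [MetricSpace X] in
theorem gn_bdd (f : ℕ → ℝ → X) (n : ℕ) (x : X) :
    BddAbove (insert 0 {v | ∃ t, v = sg t ∧ le' f (f n t) x}) := ⟨1, by
  rintro v (rfl | ⟨t, rfl, -⟩)
  · exact zero_le_one
  · exact (sg_mem t).2.le⟩

theorem gn_nonneg (f : ℕ → ℝ → X) (n : ℕ) (x : X) : 0 ≤ gn f n x :=
  le_csSup (gn_bdd f n x) (mem_insert _ _)

omit [MetricSpace X] in
theorem gn_le_one (f : ℕ → ℝ → X) (n : ℕ) (x : X) : gn f n x ≤ 1 := by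
  apply csSup_le (insert_nonempty _ _)
  rintro v (rfl | ⟨t, rfl, -⟩)
  · exact zero_le_one
  · exact (sg_mem t).2.le

include hf hmono hor in
theorem gn_mono (n : ℕ) {x y : X} (h : le' f x y) : gn f n x ≤ gn f n y := by
  apply csSup_le_csSup (gn_bdd f n y) (insert_nonempty _ _)
  rintro v (rfl | ⟨t, rfl, ht⟩)
  · exact mem_insert _ _
  · exact mem_insert_of_mem _ ⟨t, rfl, le'_trans hf hmono hor ht h⟩

include hf hmono hor in
theorem gn_apply (n : ℕ) (t : ℝ) : gn f n (f n t) = sg t := by
  apply le_antisymm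
  · apply csSup_le (insert_nonempty _ _)
    rintro v (rfl | ⟨s, rfl, hs⟩)
    · exact (sg_mem t).1.le
    · exact sg_mono.le_iff_le.2 ((le'_iff hf hmono hor).1 hs)
  · exact le_csSup (gn_bdd f n _) (mem_insert_of_mem _ ⟨t, rfl, ⟨n, t, t, le_rfl, rfl, rfl⟩⟩)

include hf hmono hor in
theorem gn_comp_cont (n m : ℕ) : Continuous (fun s => gn f n (f m s)) := by
  rcases le_total n m with h | h
  · have hm : Monotone (fun s : ℝ => (⟨gn f n (f m s), gn_nonneg f n _, gn_le_one f n _⟩ :
        Icc (0 : ℝ) 1)) := by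
      intro s t hst
      exact gn_mono hf hmono hor n ⟨m, s, t, hst, rfl, rfl⟩
    have hd : DenseRange (fun s : ℝ => (⟨gn f n (f m s), gn_nonneg f n _, gn_le_one f n _⟩ :
        Icc (0 : ℝ) 1)) := by
      intro v
      rw [mem_closure_iff_nhds]
      intro U hU
      rw [nhds_subtype, mem_comap] at hU
      obtain ⟨W, hW, hWU⟩ := hU
      have hcl : (v : ℝ) ∈ closure (Ioo (0 : ℝ) 1) := by
        rw [closure_Ioo (by norm_num)]
        exact v.2
      obtain ⟨w, hw1, hw2⟩ := mem_closure_iff_nhds.1 hcl W hW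
      obtain ⟨t, ht⟩ := sg_surj hw2
      obtain ⟨s, hs⟩ := range_mono hmono h (mem_range_self (f := f n) t)
      refine ⟨⟨w, hw2.1.le, hw2.2.le⟩, hWU hw1, s, ?_⟩
      apply Subtype.ext
      simp only
      rw [hs, gn_apply hf hmono hor, ht]
    exact continuous_subtype_val.comp (hm.continuous_of_denseRange hd)
  · obtain ⟨c, hc, -, hc2⟩ := trans_exists hf hmono hor h
    have : (fun s => gn f n (f m s)) = fun s => sg (c s) := by
      funext s
      rw [← hc2, gn_apply hf hmono hor]
    rw [this]
    exact sg_cont.comp hc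

/-- the sum of the coordinates -/
def gs (f : ℕ → ℝ → X) (x : X) : ℝ := ∑' n, (1 / 2 : ℝ) ^ n * gn f n x

theorem gs_summable (f : ℕ → ℝ → X) (x : X) : Summable fun n => (1 / 2 : ℝ) ^ n * gn f n x := by
  apply Summable.of_nonneg_of_le (fun n => mul_nonneg (by positivity) (gn_nonneg f n x))
    (fun n => mul_le_of_le_one_right (by positivity) (gn_le_one f n x))
  exact summable_geometric_two

include hf hmono hor in
theorem union_free : IsFreeArc (⋃ n, range (f n)) := by
  have hcont : ∀ m, Continuous (fun s => gs f (f m s)) := by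
    intro m
    unfold gs
    refine continuous_tsum (u := fun n => (1 / 2 : ℝ) ^ n) (fun n =>
      (gn_comp_cont hf hmono hor n m).const_mul _) summable_geometric_two fun n s => ?_
    rw [Real.norm_of_nonneg (mul_nonneg (by positivity) (gn_nonneg f n _))]
    exact mul_le_of_le_one_right (by positivity) (gn_le_one f n _)
  have hsm : ∀ m, StrictMono (fun s => gs f (f m s)) := by
    intro m s t hst
    have hle : le' f (f m s) (f m t) := ⟨m, s, t, hst.le, rfl, rfl⟩
    apply Summable.tsum_lt_tsum (i := m) _ _ (gs_summable f _) (gs_summable f _)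
    · intro n
      exact mul_le_mul_of_nonneg_left (gn_mono hf hmono hor n hle) (by positivity)
    · apply mul_lt_mul_of_pos_left _ (by positivity)
      rw [gn_apply hf hmono hor, gn_apply hf hmono hor]
      exact sg_mono hst
  apply freeArc_of_coord (g := gs f)
  · exact isOpen_iUnion fun n => (hf n).isOpen_range
  · apply isPreconnected_iUnion
    · exact ⟨p, mem_iInter.2 fun n => by
        obtain ⟨s, t, -, hs, -⟩ := hor n
        exact ⟨s, hs⟩⟩
    · intro n
      exact isPreconnected_range (hf n).continuous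
  · obtain ⟨s, t, -, hs, -⟩ := hor 0
    exact ⟨p, mem_iUnion.2 ⟨0, s, hs⟩⟩
  · intro x hx y hy hxy
    obtain ⟨n, hn⟩ := mem_iUnion.1 hx
    obtain ⟨m, hm⟩ := mem_iUnion.1 hy
    obtain ⟨a, rfl⟩ := range_mono hmono (le_max_left n m) hn
    obtain ⟨b, rfl⟩ := range_mono hmono (le_max_right n m) hm
    rw [(hsm (max n m)).injective hxy]
  · intro x hx
    obtain ⟨n, s, rfl⟩ := mem_iUnion.1 hx
    rw [← (hf n).map_nhds_eq, map_map]
    exact strictMono_nhds (hsm n) (hcont n) s

end union

theorem seq_union {e : ℕ → Set X} (he : ∀ n, IsFreeArc (e n)) (hm : ∀ n, e n ⊆ e (n + 1)) :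
    IsFreeArc (⋃ n, e n) := by
  have h1 : ∀ n, ∃ f : ℝ → X, IsOpenEmbedding f ∧ range f = e n := fun n => freeArc_iff.1 (he n)
  choose f hf hr using h1
  have hm' : ∀ n, e 0 ⊆ e n := by
    intro n
    induction n with
    | zero => exact Subset.rfl
    | succ n ih => exact ih.trans (hm n)
  have h2 : ∀ n, ∃ f' : ℝ → X, IsOpenEmbedding f' ∧ range f' = e n ∧
      ∃ s t : ℝ, s < t ∧ f' s = f 0 0 ∧ f' t = f 0 1 := by
    intro n
    have hp : f 0 0 ∈ range (f n) := by
      rw [hr n]
      apply hm' n
      rw [← hr 0]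
      exact mem_range_self _
    have hq : f 0 1 ∈ range (f n) := by
      rw [hr n]
      apply hm' n
      rw [← hr 0]
      exact mem_range_self _
    obtain ⟨s, hs⟩ := hp
    obtain ⟨t, ht⟩ := hq
    have hne : s ≠ t := by
      rintro rfl
      have := (hf 0).injective (hs.symm.trans ht)
      norm_num at this
    rcases lt_or_gt_of_ne hne with h | h
    · exact ⟨f n, hf n, hr n, s, t, h, hs, ht⟩
    · refine ⟨f n ∘ Homeomorph.neg ℝ, (hf n).comp (Homeomorph.neg ℝ).isOpenEmbedding, ?_, -s, -t,
        by linarith, ?_, ?_⟩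
      · rw [range_comp, (Homeomorph.neg ℝ).surjective.range_eq, image_univ, hr n]
      · simp [hs]
      · simp [ht]
  choose f' hf' hr' hor using h2
  have h3 := union_free hf' (fun n => by rw [hr', hr']; exact hm n) hor
  simpa only [hr'] using h3

theorem free3' [SecondCountableTopology X] (e : Set X) (he : IsFreeArc e) :
    ∃ e' : Set X, IsEdge e' ∧ e ⊆ e' := by
  obtain ⟨m, hem, hm⟩ := zorn_subset_nonempty {e : Set X | IsFreeArc e} (by
    intro c hc hchain hne
    obtain ⟨T, hTc, hTs, hTu⟩ := TopologicalSpace.isOpen_sUnion_countable c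
      (fun s hs => (hc hs).1)
    refine ⟨⋃₀ c, ?_, fun s hs => subset_sUnion_of_mem hs⟩
    have hTne : T.Nonempty := by
      by_contra h
      rw [not_nonempty_iff_eq_empty] at h
      rw [h, sUnion_empty] at hTu
      obtain ⟨s, hs⟩ := hne
      have h1 : s ⊆ ∅ := by
        rw [hTu]
        exact subset_sUnion_of_mem hs
      obtain ⟨-, ⟨φ⟩⟩ := hc hs
      exact h1 (φ.symm ⟨1 / 2, by norm_num, by norm_num⟩).2
    have : Nonempty T := hTne.to_subtype
    have : Countable T := hTc.to_subtype
    obtain ⟨enc⟩ := nonempty_encodable T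
    have : Inhabited T := Classical.inhabited_of_nonempty inferInstance
    have hdir : Directed (· ⊆ ·) (Subtype.val : T → Set X) := by
      intro a b
      rcases hchain.total (hTs a.2) (hTs b.2) with h | h
      · exact ⟨b, h, Subset.rfl⟩
      · exact ⟨a, Subset.rfl, h⟩
    set sq := Directed.sequence (Subtype.val : T → Set X) hdir with hsq
    have h1 := seq_union (e := fun n => ((sq n : T) : Set X)) (fun n => hc (hTs (sq n).2))
      (fun n => Directed.sequence_mono_nat hdir n)
    have h2 : (⋃ n, ((sq n : T) : Set X)) = ⋃₀ c := by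
      rw [← hTu]
      apply Subset.antisymm
      · exact iUnion_subset fun n => subset_sUnion_of_mem (sq n).2
      · intro x hx
        obtain ⟨t, ht, hxt⟩ := hx
        have h3 : t ⊆ (sq (Encodable.encode (⟨t, ht⟩ : T) + 1) : Set X) :=
          Directed.rel_sequence hdir ⟨t, ht⟩
        exact mem_iUnion.2 ⟨_, h3 hxt⟩
    rw [h2] at h1
    exact h1) e he
  refine ⟨m, ⟨hm.1, ?_⟩, hem⟩
  intro e' he' hme
  exact Subset.antisymm (hm.2 he' hme) hme

theorem free3 [CompactSpace X] : Free3Stmt X := Or.inr fun e he => free3' e he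

end Pool.Agent.EU.H80
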