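import Pool.Agent.Helper80_EU.Free2

/-! # XSYS: the edge system of the (subdivided) maximal free arcs (helper80) -/

open Set Metric Topology unitInterval Filter

noncomputable section

namespace Pool.Agent.EU.H80

universe u

variable {X : Type u} [MetricSpace X]

/-- end points are swapped by reversal -/
theorem hasEnds_symm {e : Set X} {a b : X} (h : HasEnds e a b) : HasEnds e b a := by
  obtain ⟨φ, h1, h2⟩ := h
  refine ⟨φ.trans rv, ?_, ?_⟩
  · exact h2.comp (show Tendsto rv F0 F1 by
      unfold F0 F1
      rw [tendsto_comap_iff]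
      have h : Tendsto (fun t : ℝ => 1 - t) (𝓝 0) (𝓝 1) := by
        have hc : Continuous fun t : ℝ => 1 - t := by fun_prop
        have := hc.tendsto 0
        rwa [sub_zero] at this
      exact h.comp tendsto_comap)
  · exact h1.comp rv_tendsto

/-- the data of a parametrised free arc -/
structure Par (e : Set X) (f : ℝ → X) (a b : X) : Prop where
  oe : OE f 0 1
  im : f '' Ioo 0 1 = e
  na : a ∉ e
  nb : b ∉ e
  cl : closure e = e ∪ {a, b}
  le0 : ∀ t ≤ 0, f t = a
  ge1 : ∀ t, 1 ≤ t → f t = b
  cont : Continuous f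
  ends : HasEnds e a b

theorem exists_par [CompactSpace X] [LocallyConnectedSpace X] {e : Set X} (he : IsFreeArc e) :
    ∃ (f : ℝ → X) (a b : X), Par e f a b := by
  classical
  obtain ⟨heo, ⟨φ⟩⟩ := he
  have hp := isOpenEmbedding_param heo φ
  have hr := range_param φ
  obtain ⟨a, b, ha, hb, hcl, hla, hlb⟩ := free1 e heo φ
  have hends : HasEnds e a b := ⟨φ, hla, hlb⟩
  set p := (fun t : Ioo (0 : ℝ) 1 => ((φ.symm t : e) : X)) with hpd
  set f : ℝ → X := fun t => if h : t ∈ Ioo (0 : ℝ) 1 then p ⟨t, h⟩ else if t ≤ 0 then a else b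
    with hf
  have hfp : ∀ t (h : t ∈ Ioo (0 : ℝ) 1), f t = p ⟨t, h⟩ := fun t h => dif_pos h
  have hf0 : ∀ t ≤ 0, f t = a := by
    intro t ht
    have h1 : t ∉ Ioo (0 : ℝ) 1 := fun h => absurd h.1 (not_lt.2 ht)
    rw [hf]
    simp only
    rw [dif_neg h1, if_pos ht]
  have hf1 : ∀ t, 1 ≤ t → f t = b := by
    intro t ht
    have h1 : t ∉ Ioo (0 : ℝ) 1 := fun h => absurd h.2 (not_lt.2 ht)
    have h2 : ¬ t ≤ 0 := by linarith
    rw [hf]
    simp only
    rw [dif_neg h1, if_neg h2]
  have hlocal : ∀ s ∈ Ioo (0 : ℝ) 1, map f (𝓝 s) = 𝓝 (f s) := by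
    intro s hs
    have h1 : map (Subtype.val : Ioo (0 : ℝ) 1 → ℝ) (𝓝 ⟨s, hs⟩) = 𝓝 s :=
      isOpen_Ioo.isOpenEmbedding_subtypeVal.map_nhds_eq ⟨s, hs⟩
    have h2 : f ∘ (Subtype.val : Ioo (0 : ℝ) 1 → ℝ) = p := by
      funext t
      exact hfp t t.2
    rw [← h1, map_map, h2, hp.map_nhds_eq, hfp s hs]
  have ht0 : Tendsto f (𝓝[>] 0) (𝓝 a) := by
    have h1 : (𝓝[>] (0 : ℝ)) = map (Subtype.val : Ioo (0 : ℝ) 1 → ℝ)
        (Filter.comap Subtype.val (𝓝 0)) := by
      rw [map_comap, Subtype.range_coe_subtype]
      have : 𝓝[>] (0 : ℝ) = 𝓝[Ioo 0 1] 0 := (nhdsWithin_Ioo_eq_nhdsGT one_pos).symm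
      rw [this]
      rfl
    rw [h1, tendsto_map'_iff]
    have h2 : f ∘ (Subtype.val : Ioo (0 : ℝ) 1 → ℝ) = p := by
      funext t
      exact hfp t t.2
    rw [h2]
    exact hla
  have ht1 : Tendsto f (𝓝[<] 1) (𝓝 b) := by
    have h1 : (𝓝[<] (1 : ℝ)) = map (Subtype.val : Ioo (0 : ℝ) 1 → ℝ)
        (Filter.comap Subtype.val (𝓝 1)) := by
      rw [map_comap, Subtype.range_coe_subtype]
      have : 𝓝[<] (1 : ℝ) = 𝓝[Ioo 0 1] 1 := (nhdsWithin_Ioo_eq_nhdsLT one_pos).symm
      rw [this]
      rfl
    rw [h1, tendsto_map'_iff]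
    have h2 : f ∘ (Subtype.val : Ioo (0 : ℝ) 1 → ℝ) = p := by
      funext t
      exact hfp t t.2
    rw [h2]
    exact hlb
  refine ⟨f, a, b, ⟨?_, hlocal⟩, ?_, ha, hb, hcl, hf0, hf1, ?_, hends⟩
  · intro s hs t ht hst
    rw [hfp s hs, hfp t ht] at hst
    exact congrArg Subtype.val (hp.injective hst)
  · rw [← hr]
    ext x
    constructor
    · rintro ⟨t, ht, rfl⟩
      rw [hfp t ht]
      exact mem_range_self _
    · rintro ⟨t, rfl⟩
      exact ⟨t, t.2, hfp t t.2⟩
  · rw [continuous_iff_continuousAt]
    intro t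
    rcases lt_trichotomy t 0 with h | h | h
    · have : f =ᶠ[𝓝 t] fun _ => a := by
        filter_upwards [Iio_mem_nhds h] with s hs
        exact hf0 s (le_of_lt hs)
      exact continuousAt_const.congr this.symm
    · subst h
      rw [continuousAt_iff_continuous_left'_right']
      refine ⟨?_, ?_⟩
      · unfold ContinuousWithinAt
        rw [hf0 0 le_rfl]
        apply tendsto_const_nhds.congr'
        filter_upwards [self_mem_nhdsWithin] with s hs
        exact (hf0 s (le_of_lt hs)).symm
      · unfold ContinuousWithinAt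
        rw [hf0 0 le_rfl]
        exact ht0
    · rcases lt_trichotomy t 1 with h' | h' | h'
      · exact (hlocal t ⟨h, h'⟩).le
      · subst h'
        rw [continuousAt_iff_continuous_left'_right']
        refine ⟨?_, ?_⟩
        · unfold ContinuousWithinAt
          rw [hf1 1 le_rfl]
          exact ht1
        · unfold ContinuousWithinAt
          rw [hf1 1 le_rfl]
          apply tendsto_const_nhds.congr'
          filter_upwards [self_mem_nhdsWithin] with s hs
          exact (hf1 s (le_of_lt hs)).symm
      · have : f =ᶠ[𝓝 t] fun _ => b := by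
          filter_upwards [Ioi_mem_nhds h'] with s hs
          exact hf1 s (le_of_lt hs)
        exact continuousAt_const.congr this.symm

/-- the ends are determined up to the order -/
theorem ends_unique [CompactSpace X] [LocallyConnectedSpace X] {e : Set X} (he : IsOpen e)
    {f : ℝ → X} {a b a' b' : X} (hp : Par e f a b) (h : HasEnds e a' b') :
    (a' = a ∧ b' = b) ∨ (a' = b ∧ b' = a) := by
  obtain ⟨φ, h1, h2⟩ := h
  have hemb := isOpenEmbedding_param he φ
  have hr := range_param φ
  have hcl := closure_range hemb h1 h2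
  obtain ⟨a'', ha'', ha2⟩ := lim0 hemb
  obtain ⟨b'', hb'', hb2⟩ := lim1 hemb
  have hF1 : F1.NeBot := by
    have h : Tendsto rv F0 F1 := by
      unfold F0 F1
      rw [tendsto_comap_iff]
      have h : Tendsto (fun t : ℝ => 1 - t) (𝓝 0) (𝓝 1) := by
        have hc : Continuous fun t : ℝ => 1 - t := by fun_prop
        have := hc.tendsto 0
        rwa [sub_zero] at this
      exact h.comp tendsto_comap
    exact h.neBot
  have ea : a' = a'' := tendsto_nhds_unique (f := _) (l := F0) h1 ha2
  have eb : b' = b'' := tendsto_nhds_unique (f := _) (l := F1) h2 hb2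
  rw [hr] at ha'' hb'' hcl
  rw [← ea] at ha''
  rw [← eb] at hb''
  have hset : ({a', b'} : Set X) = {a, b} := by
    have e1 : ({a', b'} : Set X) = closure e \ e := by
      rw [hcl]
      ext x
      constructor
      · intro hx
        refine ⟨Or.inr hx, ?_⟩
        rcases hx with rfl | rfl
        · exact ha''
        · exact hb''
      · rintro ⟨hx | hx, hx2⟩
        · exact absurd hx hx2
        · exact hx
    have e2 : ({a, b} : Set X) = closure e \ e := by
      rw [hp.cl]
      ext x
      constructor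
      · intro hx
        refine ⟨Or.inr hx, ?_⟩
        rcases hx with rfl | rfl
        · exact hp.na
        · exact hp.nb
      · rintro ⟨hx | hx, hx2⟩
        · exact absurd hx hx2
        · exact hx
    rw [e1, e2]
  exact Set.pair_eq_pair_iff.1 hset

/-- the halves of the edges -/
theorem xsys [CompactSpace X] [LocallyConnectedSpace X] : XSysStmt X := by
  classical
  intro hdis hmax heven
  have hch : ∀ e : {e : Set X // IsEdge e}, ∃ (f : ℝ → X) (a b : X), Par e.1 f a b :=
    fun e => exists_par e.2.1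
  choose F a b hF using hch
  -- the ends are ground points
  have hground : ∀ e : {e : Set X // IsEdge e}, ∀ x ∈ closure e.1, x ∉ e.1 → x ∈ ground X := by
    intro e x hx hxe
    rintro ⟨e', he', hxe'⟩
    have hne : e' ≠ e.1 := by
      rintro rfl
      exact hxe hxe'
    obtain ⟨y, hy1, hy2⟩ := mem_closure_iff.1 hx e' he'.1.1 hxe'
    exact (disjoint_left.1 (hdis e' e.1 he' e.2 hne)) hy1 hy2
  have haG : ∀ e, a e ∈ ground X := fun e => hground e _ (by rw [(hF e).cl]; exact Or.inr (Or.inl rfl))
    (hF e).na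
  have hbG : ∀ e, b e ∈ ground X := fun e => hground e _ (by rw [(hF e).cl]; exact Or.inr (Or.inr rfl))
    (hF e).nb
  have hFe : ∀ e : {e : Set X // IsEdge e}, ∀ t ∈ Ioo (0 : ℝ) 1, F e t ∈ e.1 := by
    intro e t ht
    rw [← (hF e).im]
    exact ⟨t, ht, rfl⟩
  -- the half edges
  let sc : Bool → ℝ → ℝ := fun β t => if β then (1 + t) / 2 else t / 2
  have hscc : ∀ β, Continuous (sc β) := by
    intro β
    cases β
    · show Continuous fun t : ℝ => t / 2
      fun_prop
    · show Continuous fun t : ℝ => (1 + t) / 2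
      fun_prop
  have hscim : ∀ β, (fun t : I => sc β t) '' Ioo 0 1
      = if β then Ioo (1 / 2 : ℝ) 1 else Ioo (0 : ℝ) (1 / 2) := by
    intro β
    cases β
    · ext s
      simp only [sc, Bool.false_eq_true, if_false]
      constructor
      · rintro ⟨t, ht, rfl⟩
        have h1 : (0 : ℝ) < t := ht.1
        have h2 : (t : ℝ) < 1 := ht.2
        constructor <;> simp only <;> linarith
      · rintro ⟨h1, h2⟩
        refine ⟨⟨2 * s, by linarith, by linarith⟩, ⟨?_, ?_⟩, ?_⟩
        · show (0 : ℝ) < 2 * s
          linarith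
        · show 2 * s < (1 : ℝ)
          linarith
        · simp only
          ring
    · ext s
      simp only [sc, if_true]
      constructor
      · rintro ⟨t, ht, rfl⟩
        have h1 : (0 : ℝ) < t := ht.1
        have h2 : (t : ℝ) < 1 := ht.2
        constructor <;> simp only <;> linarith
      · rintro ⟨h1, h2⟩
        refine ⟨⟨2 * s - 1, by linarith, by linarith⟩, ⟨?_, ?_⟩, ?_⟩
        · show (0 : ℝ) < 2 * s - 1
          linarith
        · show 2 * s - 1 < (1 : ℝ)
          linarith
        · simp only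
          ring
  have hsub : ∀ β : Bool, (if β then Ioo (1 / 2 : ℝ) 1 else Ioo (0 : ℝ) (1 / 2)) ⊆ Ioo (0 : ℝ) 1 := by
    intro β
    cases β
    · simp only [Bool.false_eq_true, if_false]
      exact fun s hs => ⟨hs.1, by linarith [hs.2]⟩
    · simp only [if_true]
      exact fun s hs => ⟨by linarith [hs.1], hs.2⟩
  have hopI : ∀ β : Bool, IsOpen (if β then Ioo (1 / 2 : ℝ) 1 else Ioo (0 : ℝ) (1 / 2)) := by
    intro β
    cases β
    · simp only [Bool.false_eq_true, if_false]
      exact isOpen_Ioo
    · simp only [if_true]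
      exact isOpen_Ioo
  have hinjF : ∀ e : {e : Set X // IsEdge e}, ∀ s ∈ Icc (0 : ℝ) 1, ∀ t ∈ Icc (0 : ℝ) 1,
      s < t → (s ≠ 0 ∨ t ≠ 1) → F e s ≠ F e t := by
    intro e s hs t ht hst hor heq
    rcases hs.1.eq_or_lt with h | h
    · have ht1 : t < 1 := by
        rcases hor with h' | h'
        · exact absurd h.symm h'
        · exact lt_of_le_of_ne ht.2 h'
      rw [(hF e).le0 s (by rw [← h])] at heq
      have := hFe e t ⟨by linarith, ht1⟩
      rw [← heq] at this
      exact (hF e).na this
    · have hse := hFe e s ⟨h, by linarith [ht.2]⟩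
      rcases ht.2.eq_or_lt with h' | h'
      · rw [(hF e).ge1 t (by rw [h'])] at heq
        rw [heq] at hse
        exact (hF e).nb hse
      · exact hst.ne ((hF e).oe.inj ⟨h, by linarith⟩ ⟨by linarith, h'⟩ heq)
  have hIm : ∀ (e : {e : Set X // IsEdge e}) (β : Bool),
      (fun t : I => F e (sc β t)) '' Ioo 0 1
        = F e '' (if β then Ioo (1 / 2 : ℝ) 1 else Ioo (0 : ℝ) (1 / 2)) := by
    intro e β
    rw [← hscim β, ← image_comp]
    rfl
  let 𝓔 : EdgeSys X ({e : Set X // IsEdge e} × Bool) :=
    { φ := fun i => ⟨fun t : I => F i.1 (sc i.2 t),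
        (hF i.1).cont.comp ((hscc i.2).comp continuous_subtype_val)⟩
      inj := by
        rintro ⟨e, β⟩ s t hst
        have hst' : F e (sc β s) = F e (sc β t) := hst
        by_contra hne
        have key : ∀ s t : I, s < t → F e (sc β s) ≠ F e (sc β t) := by
          intro s t hlt
          have hlt' : (s : ℝ) < t := hlt
          have hs0 := s.2.1
          have ht1 := t.2.2
          have hs1 := s.2.2
          have ht0 := t.2.1
          cases β
          · simp only [sc, Bool.false_eq_true, if_false]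
            apply hinjF e _ ⟨by linarith, by linarith⟩ _ ⟨by linarith, by linarith⟩ (by linarith)
            right
            intro h
            linarith
          · simp only [sc, if_true]
            apply hinjF e _ ⟨by linarith, by linarith⟩ _ ⟨by linarith, by linarith⟩ (by linarith)
            left
            intro h
            linarith
        rcases lt_or_gt_of_ne hne with h | h
        · exact key s t h hst'
        · exact key t s h hst'.symm
      opn := by
        rintro ⟨e, β⟩
        show IsOpen ((fun t : I => F e (sc β t)) '' Ioo 0 1)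
        rw [hIm]
        exact (hF e).oe.isOpen (hopI β) (hsub β)
      disj := by
        rintro ⟨e, β⟩ ⟨e', β'⟩ hne
        show Disjoint ((fun t : I => F e (sc β t)) '' Ioo 0 1)
          ((fun t : I => F e' (sc β' t)) '' Ioo 0 1)
        rw [hIm, hIm, disjoint_left]
        rintro _ ⟨s, hs, rfl⟩ ⟨t, ht, hst⟩
        by_cases hee : e = e'
        · subst hee
          have h1 := (hF e).oe.inj (hsub _ ht) (hsub _ hs) hst
          subst h1
          have hbb : β ≠ β' := fun h => hne (by rw [h])
          cases β <;> cases β'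
          · exact hbb rfl
          · simp only [Bool.false_eq_true, if_false, if_true] at hs ht
            linarith [hs.2, ht.1]
          · simp only [Bool.false_eq_true, if_false, if_true] at hs ht
            linarith [hs.1, ht.2]
          · exact hbb rfl
        · have h1 : F e s ∈ e.1 := hFe e s (hsub _ hs)
          have h2 : F e s ∈ e'.1 := by
            rw [← hst]
            exact hFe e' t (hsub _ ht)
          exact (disjoint_left.1 (hdis e.1 e'.1 e.2 e'.2 fun h => hee (Subtype.ext h))) h1 h2 }
  have ho : ∀ e β, 𝓔.o (e, β) = F e '' (if β then Ioo (1 / 2 : ℝ) 1 else Ioo (0 : ℝ) (1 / 2)) :=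
    fun e β => hIm e β
  have hosub : ∀ e β, 𝓔.o (e, β) ⊆ e.1 := by
    intro e β
    rw [ho]
    rintro _ ⟨t, ht, rfl⟩
    exact hFe e t (hsub _ ht)
  -- values at the ends
  have v0 : ∀ e, 𝓔.φ (e, false) 0 = a e := by
    intro e
    show F e (((0 : I) : ℝ) / 2) = a e
    exact (hF e).le0 _ (by simp)
  have v1 : ∀ e, 𝓔.φ (e, false) 1 = F e (1 / 2) := by
    intro e
    show F e (((1 : I) : ℝ) / 2) = _
    simp
  have v2 : ∀ e, 𝓔.φ (e, true) 0 = F e (1 / 2) := by
    intro e
    show F e ((1 + ((0 : I) : ℝ)) / 2) = _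
    simp
  have v3 : ∀ e, 𝓔.φ (e, true) 1 = b e := by
    intro e
    show F e ((1 + ((1 : I) : ℝ)) / 2) = _
    exact (hF e).ge1 _ (by simp)
  have hgG : ground X ⊆ 𝓔.G := by
    intro x hx hx2
    obtain ⟨⟨e, β⟩, hx3⟩ := mem_iUnion.1 hx2
    exact hx ⟨e.1, e.2, hosub e β hx3⟩
  refine ⟨_, 𝓔, ?_, ?_⟩
  · -- even cuts
    intro K hK
    obtain ⟨hK1, hK2, hK3⟩ := hK
    have hgcl : IsClosed (ground X) := by
      unfold ground
      rw [isClosed_compl_iff]
      exact isOpen_sUnion fun e he => he.1.1
    set A : Set X := K ∩ ground X with hA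
    set B : Set X := (𝓔.G \ K) ∩ ground X with hB
    have hcut := heven A B (hK2.inter hgcl) (hK3.inter hgcl) (by
      rw [disjoint_left]
      rintro x hx hx2
      exact hx2.1.2 hx.1) (by
      ext x
      constructor
      · rintro (hx | hx)
        · exact hx.2
        · exact hx.2
      · intro hx
        by_cases h : x ∈ K
        · exact Or.inl ⟨h, hx⟩
        · exact Or.inr ⟨⟨hgG hx, h⟩, hx⟩)
    set Eo : Set {e : Set X // IsEdge e} := {e | ¬ (a e ∈ K ↔ b e ∈ K)} with hEo
    have hcut2 : edgeCut A B = Subtype.val '' Eo := by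
      ext e
      constructor
      · rintro ⟨he, x, hx, y, hy, hxy⟩
        refine ⟨⟨e, he⟩, ?_, rfl⟩
        rcases ends_unique he.1.1 (hF ⟨e, he⟩) hxy with ⟨h1, h2⟩ | ⟨h1, h2⟩
        · rw [h1] at hx
          rw [h2] at hy
          intro hiff
          exact hy.1.2 (hiff.1 hx.1)
        · rw [h1] at hx
          rw [h2] at hy
          intro hiff
          exact hy.1.2 (hiff.2 hx.1)
      · rintro ⟨e, he, rfl⟩
        by_cases h : a e ∈ K
        · have h2 : b e ∉ K := fun h2 => he ⟨fun _ => h2, fun _ => h⟩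
          exact ⟨e.2, a e, ⟨h, haG e⟩, b e, ⟨⟨hgG (hbG e), h2⟩, hbG e⟩, (hF e).ends⟩
        · have h2 : b e ∈ K := by
            by_contra h2
            exact he ⟨fun h' => absurd h' h, fun h' => absurd h' h2⟩
          exact ⟨e.2, b e, ⟨h2, hbG e⟩, a e, ⟨⟨hgG (haG e), h⟩, haG e⟩, hasEnds_symm (hF e).ends⟩
    rw [hcut2, ncard_image_of_injective _ Subtype.val_injective] at hcut
    have hmf : ∀ e, ((e, false) ∈ 𝓔.cross K ↔ ¬ (a e ∈ K ↔ F e (1 / 2) ∈ K)) := by
      intro e
      show ¬ (𝓔.φ (e, false) 0 ∈ K ↔ 𝓔.φ (e, false) 1 ∈ K) ↔ _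
      rw [v0, v1]
    have hmt : ∀ e, ((e, true) ∈ 𝓔.cross K ↔ ¬ (F e (1 / 2) ∈ K ↔ b e ∈ K)) := by
      intro e
      show ¬ (𝓔.φ (e, true) 0 ∈ K ↔ 𝓔.φ (e, true) 1 ∈ K) ↔ _
      rw [v2, v3]
    by_cases hfin : (𝓔.cross K).Finite
    · set C : Finset ({e : Set X // IsEdge e} × Bool) := hfin.toFinset with hC
      have hCm : ∀ i, i ∈ C ↔ i ∈ 𝓔.cross K := fun i => hfin.mem_toFinset
      set S : Finset {e : Set X // IsEdge e} := C.image Prod.fst with hS
      have hEoS : Eo ⊆ S := by
        intro e he
        rw [Finset.mem_coe, hS, Finset.mem_image]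
        by_cases h : (e, false) ∈ 𝓔.cross K
        · exact ⟨(e, false), (hCm _).2 h, rfl⟩
        · refine ⟨(e, true), (hCm _).2 ?_, rfl⟩
          rw [hmt]
          rw [hmf, not_not] at h
          intro h2
          exact he (h.trans h2)
      have hEfin : Eo.Finite := S.finite_toSet.subset hEoS
      have hcardC : (𝓔.cross K).ncard = ∑ e ∈ S, (C.filter fun i => i.1 = e).card := by
        rw [ncard_eq_toFinset_card _ hfin]
        exact Finset.card_eq_sum_card_fiberwise fun i hi => Finset.mem_image_of_mem _ hi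
      have hcardE : Eo.ncard = ∑ e ∈ S, if e ∈ Eo then 1 else 0 := by
        rw [← Finset.card_filter]
        have h1 : ((S.filter fun e => e ∈ Eo : Finset _) : Set {e : Set X // IsEdge e}) = Eo := by
          ext e
          rw [Finset.mem_coe, Finset.mem_filter]
          exact ⟨fun h => h.2, fun h => ⟨hEoS h, h⟩⟩
        have h2 := ncard_coe_finset (S.filter fun e => e ∈ Eo)
        rw [h1] at h2
        exact h2
      have hfib : ∀ e, (C.filter fun i => i.1 = e).card
          = (if (e, false) ∈ 𝓔.cross K then 1 else 0) + (if (e, true) ∈ 𝓔.cross K then 1 else 0) := by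
        intro e
        have : (C.filter fun i => i.1 = e)
            = (if (e, false) ∈ 𝓔.cross K then {(e, false)} else ∅)
              ∪ (if (e, true) ∈ 𝓔.cross K then {(e, true)} else ∅) := by
          ext ⟨e', β⟩
          simp only [Finset.mem_filter, Finset.mem_union, hCm]
          constructor
          · rintro ⟨h1, h2⟩
            have h2' : e' = e := h2
            subst h2'
            cases β
            · left
              rw [if_pos h1]
              exact Finset.mem_singleton_self _
            · right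
              rw [if_pos h1]
              exact Finset.mem_singleton_self _
          · rintro (h | h)
            · by_cases h1 : (e, false) ∈ 𝓔.cross K
              · rw [if_pos h1, Finset.mem_singleton] at h
                rw [h]
                exact ⟨h1, (Prod.mk.inj h).1⟩
              · rw [if_neg h1] at h
                exact absurd h (Finset.notMem_empty _)
            · by_cases h1 : (e, true) ∈ 𝓔.cross K
              · rw [if_pos h1, Finset.mem_singleton] at h
                rw [h]
                exact ⟨h1, (Prod.mk.inj h).1⟩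
              · rw [if_neg h1] at h
                exact absurd h (Finset.notMem_empty _)
        rw [this, Finset.card_union_of_disjoint]
        · congr 1 <;> split_ifs <;> simp
        · rw [Finset.disjoint_left]
          intro i h1 h2
          split_ifs at h1 h2
          · rw [Finset.mem_singleton] at h1 h2
            rw [h1] at h2
            simp at h2
          all_goals first | exact absurd h1 (Finset.notMem_empty _) | exact absurd h2 (Finset.notMem_empty _)
      have hsum : Even ((𝓔.cross K).ncard + Eo.ncard) := by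
        rw [hcardC, hcardE, ← Finset.sum_add_distrib]
        apply Finset.even_sum
        intro e _
        rw [hfib]
        have he : e ∈ Eo ↔ ¬ (a e ∈ K ↔ b e ∈ K) := Iff.rfl
        simp only [hmf, hmt, he]
        by_cases h1 : a e ∈ K <;> by_cases h2 : F e (1 / 2) ∈ K <;> by_cases h3 : b e ∈ K <;>
          simp only [h1, h2, h3] <;> decide
      exact (Nat.even_add.1 hsum).2 hcut
    · rw [Set.Infinite.ncard hfin]
      exact ⟨0, rfl⟩
  · -- no free arcs in the complement
    intro e he heo
    refine ⟨fun φ => ?_⟩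
    obtain ⟨e', he', hee⟩ := hmax e ⟨heo, ⟨φ⟩⟩
    set x : X := ((φ.symm ⟨1 / 2, by norm_num, by norm_num⟩ : e) : X) with hx
    have hxe : x ∈ e := (φ.symm ⟨1 / 2, by norm_num, by norm_num⟩).2
    apply he hxe
    have hx' := hee hxe
    have him : F ⟨e', he'⟩ '' Ioo 0 1 = e' := (hF ⟨e', he'⟩).im
    rw [← him] at hx'
    obtain ⟨t, ht, htx⟩ := hx'
    have hcl : (Ioo (0 : ℝ) 1) ⊆ closure (Ioo (0 : ℝ) (1 / 2) ∪ Ioo (1 / 2 : ℝ) 1) := by
      rw [closure_union, closure_Ioo (by norm_num), closure_Ioo (by norm_num)]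
      intro s hs
      rcases le_total s (1 / 2) with h | h
      · exact Or.inl ⟨hs.1.le, h⟩
      · exact Or.inr ⟨h, hs.2.le⟩
    have h1 : F ⟨e', he'⟩ t ∈ F ⟨e', he'⟩ '' closure (Ioo (0 : ℝ) (1 / 2) ∪ Ioo (1 / 2 : ℝ) 1) :=
      ⟨t, hcl ht, rfl⟩
    have h2 := image_closure_subset_closure_image (hF ⟨e', he'⟩).cont h1
    rw [htx] at h2
    apply closure_mono _ h2
    rintro _ ⟨s, hs | hs, rfl⟩
    · refine mem_iUnion.2 ⟨(⟨e', he'⟩, false), ?_⟩
      rw [ho]
      simp only [Bool.false_eq_true, if_false]
      exact ⟨s, hs, rfl⟩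
    · refine mem_iUnion.2 ⟨(⟨e', he'⟩, true), ?_⟩
      rw [ho]
      simp only [if_true]
      exact ⟨s, hs, rfl⟩

end Pool.Agent.EU.H80
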